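import Mathlib

set_option autoImplicit false
set_option linter.unusedSectionVars false

namespace Pool.Agent.H.MP_cecf91_an
open Set

variable {M : Type*} [Ring M] [Algebra ℝ M] [TopologicalSpace M] [T2Space M]
  [IsTopologicalAddGroup M] [ContinuousSMul ℝ M]

structure Hyp (P : Set M) (n : M →L[ℝ] ℝ) : Prop where
  cR : ∀ y : M, Continuous fun x : M => x * y
  cl : IsClosed P
  add : ∀ x ∈ P, ∀ y ∈ P, x + y ∈ P
  mul : ∀ x ∈ P, ∀ y ∈ P, x * y ∈ P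
  sm : ∀ t : ℝ, 0 ≤ t → t • (1 : M) ∈ P
  n0 : ∀ x ∈ P, 0 ≤ n x
  n1 : ∀ x ∈ P, n x ≤ 0 → x = 0
  nm : ∀ x ∈ P, ∀ y ∈ P, n (x * y) ≤ n x * n y
  cp : ∀ R : ℝ, IsCompact {x | x ∈ P ∧ n x ≤ R}
  sp : ∀ x, ∃ a ∈ P, ∃ b ∈ P, x = a - b

structure Good (P : Set M) (n : M →L[ℝ] ℝ) (C : Set M) : Prop where
  cl : IsClosed C
  sub : C ⊆ P
  add : ∀ x ∈ C, ∀ y ∈ C, x + y ∈ C
  mul : ∀ x ∈ P, ∀ y ∈ C, x * y ∈ C
  ne : ∃ x ∈ C, n x = 1

variable {P : Set M} {n : M →L[ℝ] ℝ}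

lemma Good.sm (h : Hyp P n) {C : Set M} (hC : Good P n C) {t : ℝ} (ht : 0 ≤ t) {x : M}
    (hx : x ∈ C) : t • x ∈ C := by
  simpa using hC.mul _ (h.sm t ht) x hx

lemma Hyp.smP (h : Hyp P n) {t : ℝ} (ht : 0 ≤ t) {x : M} (hx : x ∈ P) : t • x ∈ P := by
  simpa using h.mul _ (h.sm t ht) x hx

lemma Good.cp (h : Hyp P n) {C : Set M} (hC : Good P n C) (R : ℝ) :
    IsCompact {x | x ∈ C ∧ n x ≤ R} :=
  (h.cp R).of_isClosed_subset (hC.cl.inter (isClosed_le n.continuous continuous_const))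
    fun _ hx => ⟨hC.sub hx.1, hx.2⟩

lemma Good.cp1 (h : Hyp P n) {C : Set M} (hC : Good P n C) :
    IsCompact {x | x ∈ C ∧ n x = 1} :=
  (h.cp 1).of_isClosed_subset (hC.cl.inter (isClosed_eq n.continuous continuous_const))
    fun _ hx => ⟨hC.sub hx.1, hx.2.le⟩

lemma Hyp.pos (h : Hyp P n) {x : M} (hx : x ∈ P) (h0 : x ≠ 0) : 0 < n x :=
  lt_of_not_ge fun h1 => h0 (h.n1 x hx h1)

lemma ex_min (h : Hyp P n) {U : Set M} (hU : Good P n U) :
    ∃ C ⊆ U, Minimal (Good P n) C := by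
  refine zorn_superset_nonempty {C | Good P n C} (fun c hc hch hne => ?_) U hU
  refine ⟨⋂₀ c, ⟨isClosed_sInter fun s hs => (hc hs).cl, ?_, fun x hx y hy s hs =>
    (hc hs).add x (hx s hs) y (hy s hs), fun x hx y hy s hs => (hc hs).mul x hx y (hy s hs), ?_⟩,
    fun s hs => sInter_subset_of_mem hs⟩
  · obtain ⟨s, hs⟩ := hne
    exact (sInter_subset_of_mem hs).trans (hc hs).sub
  · have : Nonempty c := hne.to_subtype
    obtain ⟨x, hx⟩ := IsCompact.nonempty_iInter_of_directed_nonempty_isCompact_isClosed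
      (fun s : c => {x | x ∈ s.1 ∧ n x = 1}) (fun s t => by
        rcases hch.total s.2 t.2 with h1 | h1
        · exact ⟨s, Subset.rfl, fun x hx => ⟨h1 hx.1, hx.2⟩⟩
        · exact ⟨t, fun x hx => ⟨h1 hx.1, hx.2⟩, Subset.rfl⟩)
      (fun s => (hc s.2).ne) (fun s => (hc s.2).cp1 h) (fun s => ((hc s.2).cp1 h).isClosed)
    rw [mem_iInter] at hx
    exact ⟨x, fun s hs => (hx ⟨s, hs⟩).1, (hx (Classical.arbitrary c)).2⟩

lemma norm1 (h : Hyp P n) {C : Set M} (hC : Good P n C) {x : M} (hx : x ∈ C) (h0 : x ≠ 0) :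
    (n x)⁻¹ • x ∈ C ∧ n ((n x)⁻¹ • x) = 1 := by
  have := h.pos (hC.sub hx) h0
  exact ⟨hC.sm h (inv_pos.2 this).le hx, by simp [this.ne']⟩

lemma surj (h : Hyp P n) {C : Set M} (hC : Minimal (Good P n) C) {z : M} (hz : z ∈ C)
    (h0 : ∃ x ∈ C, x * z ≠ 0) :
    (∃ c > 0, ∀ x ∈ C, c * n x ≤ n (x * z)) ∧ ∀ y ∈ C, ∃ x ∈ C, x * z = y := by
  have g := hC.prop
  have h1 : ∀ x ∈ C, n x = 1 → x * z ≠ 0 := fun x hx h1 h2 => by
    have : Good P n {x | x ∈ C ∧ x * z = 0} := ⟨g.cl.inter (isClosed_eq (h.cR z) continuous_const),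
      fun _ hx => g.sub hx.1, fun a ha b hb => ⟨g.add a ha.1 b hb.1, by rw [add_mul, ha.2, hb.2, add_zero]⟩,
      fun a ha b hb => ⟨g.mul a ha b hb.1, by rw [mul_assoc, hb.2, mul_zero]⟩, x, ⟨hx, h2⟩, h1⟩
    obtain ⟨y, hy, hy0⟩ := h0
    exact hy0 (hC.le_of_le this (fun _ hx => hx.1) hy).2
  obtain ⟨x0, hx0, hm⟩ := (g.cp1 h).exists_isMinOn g.ne
    (n.continuous.comp (h.cR z)).continuousOn
  have hc : 0 < n (x0 * z) := h.pos (g.sub (g.mul _ (g.sub hx0.1) z hz)) (h1 x0 hx0.1 hx0.2)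
  have h2 : ∀ x ∈ C, n (x0 * z) * n x ≤ n (x * z) := fun x hx => by
    by_cases hx0 : x = 0
    · simp [hx0]
    have h3 := h.pos (g.sub hx) hx0
    have h4 : n (x0 * z) ≤ n (((n x)⁻¹ • x) * z) := hm (norm1 h g hx hx0)
    rw [smul_mul_assoc, map_smul, smul_eq_mul, inv_mul_eq_div, le_div_iff₀ h3] at h4
    exact h4
  refine ⟨⟨_, hc, h2⟩, ?_⟩
  have : Good P n ((· * z) '' C) := by
    refine ⟨?_, ?_, ?_, ?_, ?_⟩
    · refine isClosed_of_closure_subset fun y hy => ?_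
      have h6 : y ∈ closure ({w | n w < n y + 1} ∩ (· * z) '' C) :=
        (isOpen_lt n.continuous continuous_const).inter_closure ⟨by simp, hy⟩
      have h7 : IsClosed ((· * z) '' {x | x ∈ C ∧ n x ≤ (n y + 1) / n (x0 * z)}) :=
        ((g.cp h _).image (h.cR z)).isClosed
      have h8 := closure_minimal (fun w hw => ?_) h7 h6
      · exact image_mono (fun _ hx => hx.1) h8
      · obtain ⟨h9, x, hx, rfl⟩ := hw
        refine ⟨x, ⟨hx, ?_⟩, rfl⟩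
        rw [le_div_iff₀ hc, mul_comm]
        exact (h2 x hx).trans (le_of_lt h9)
    · rintro _ ⟨x, hx, rfl⟩
      exact g.sub (g.mul _ (g.sub hx) z hz)
    · rintro _ ⟨x, hx, rfl⟩ _ ⟨y, hy, rfl⟩
      exact ⟨x + y, g.add x hx y hy, add_mul _ _ _⟩
    · rintro a ha _ ⟨y, hy, rfl⟩
      exact ⟨a * y, g.mul a ha y hy, mul_assoc _ _ _⟩
    · refine ⟨_, ⟨(n (x0 * z))⁻¹ • x0, g.sm h (inv_pos.2 hc).le hx0.1, rfl⟩, ?_⟩
      simp [hc.ne']
  intro y hy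
  exact hC.le_of_le this (by
    rintro _ ⟨x, hx, rfl⟩
    exact g.mul _ (g.sub hx) z hz) hy

lemma neu (h : Hyp P n) {C : Set M} (g : Good P n C) {e : M} (he : e ∈ C)
    (h1 : ∀ x ∈ C, x * e = x) {a : M} (ha : a ∈ C) (hn : n a ≤ 1 / 2) :
    ∃ y ∈ C, y * (e - a) = e := by
  have key : ∀ N : ℕ, ∃ y ∈ C, e - y * (e - a) ∈ C ∧ n (e - y * (e - a)) ≤ (1 / 2) ^ N * n e ∧
      n y + 2 * n (e - y * (e - a)) ≤ 2 * n e := by
    intro N
    induction N with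
    | zero => exact ⟨0, by simpa using g.sm h le_rfl he, by simpa using he, by simp, by simp⟩
    | succ N ih =>
      obtain ⟨y, hy, h2, h3, h4⟩ := ih
      have h5 : e - (y + (e - y * (e - a))) * (e - a) = (e - y * (e - a)) * a := by
        have := h1 _ h2
        rw [add_mul, mul_sub (e - y * (e - a)), this]
        abel
      have h6 := h.nm _ (g.sub h2) _ (g.sub ha)
      have h7 := h.n0 _ (g.sub h2)
      refine ⟨_, g.add y hy _ h2, ?_, ?_, ?_⟩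
      · rw [h5]; exact g.mul _ (g.sub h2) a ha
      · rw [h5, pow_succ]; nlinarith
      · rw [h5, map_add]; nlinarith
  have hc : Continuous fun y : M => e - y * (e - a) := continuous_const.sub (h.cR _)
  obtain ⟨y, hy⟩ := IsCompact.nonempty_iInter_of_sequence_nonempty_isCompact_isClosed
    (fun N : ℕ => {y | (y ∈ C ∧ n y ≤ 2 * n e) ∧ e - y * (e - a) ∈ C ∧
      n (e - y * (e - a)) ≤ (1 / 2) ^ N * n e})
    (fun N y hy => ⟨hy.1, hy.2.1, hy.2.2.trans (mul_le_mul_of_nonneg_right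
      (pow_le_pow_of_le_one (by norm_num) (by norm_num) N.le_succ) (h.n0 _ (g.sub he)))⟩)
    (fun N => by
      obtain ⟨y, hy, h2, h3, h4⟩ := key N
      exact ⟨y, ⟨hy, by linarith [h.n0 _ (g.sub h2)]⟩, h2, h3⟩)
    ((g.cp h _).inter_right ((g.cl.preimage hc).inter
      (isClosed_le (n.continuous.comp hc) continuous_const)))
    (fun N => (g.cp h _).isClosed.inter ((g.cl.preimage hc).inter
      (isClosed_le (n.continuous.comp hc) continuous_const)))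
  rw [mem_iInter] at hy
  refine ⟨y, (hy 0).1.1, (sub_eq_zero.1 (h.n1 _ (g.sub (hy 0).2.1) ?_)).symm⟩
  have : Filter.Tendsto (fun N : ℕ => (1 / 2 : ℝ) ^ N * n e) Filter.atTop (nhds (0 * n e)) :=
    (tendsto_pow_atTop_nhds_zero_of_lt_one (by norm_num) (by norm_num)).mul_const _
  rw [zero_mul] at this
  exact ge_of_tendsto' this fun N => (hy N).2.2

lemma line (h : Hyp P n) {C : Set M} (hC : Minimal (Good P n) C) {e : M} (he : e ∈ C)
    (e0 : e ≠ 0) (ee : e * e = e) :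
    (∀ x ∈ C, x * e = x) ∧ ∀ a ∈ C, e * a = a → ∃ t : ℝ, a = t • e := by
  have g := hC.prop
  have h1 : ∀ x ∈ C, x * e = x := fun x hx => by
    obtain ⟨y, -, rfl⟩ := (surj h hC he ⟨e, he, ee.symm ▸ e0⟩).2 x hx
    rw [mul_assoc, ee]
  refine ⟨h1, ?_⟩
  have inv : ∀ a ∈ C, e * a = a → a ≠ 0 → ∃ k ∈ C, e * k = k ∧ k * a = e := fun a ha h2 h3 => by
    obtain ⟨k, hk, h4⟩ := (surj h hC ha ⟨e, he, h2.symm ▸ h3⟩).2 e he
    exact ⟨e * k, g.mul e (g.sub he) k hk, by rw [← mul_assoc, ee], by rw [mul_assoc, h4, ee]⟩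
  have small : ∀ a ∈ C, e * a = a → ∃ t : ℝ, 0 < t ∧ e - t • a ∈ C := fun a ha h2 => by
    have h3 := h.n0 _ (g.sub ha)
    have h4 : 0 < (2 * n a + 1)⁻¹ := by positivity
    refine ⟨_, h4, ?_⟩
    obtain ⟨y, hy, h5⟩ := neu h g he h1 (g.sm h h4.le ha) (by
      rw [map_smul, smul_eq_mul, inv_mul_eq_div, div_le_iff₀ (by positivity)]; linarith)
    have h6 : e * y * (e - (2 * n a + 1)⁻¹ • a) = e := by rw [mul_assoc, h5, ee]
    obtain ⟨k, hk, -, h8⟩ := inv (e * y) (g.mul e (g.sub he) y hy) (by rw [← mul_assoc, ee])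
      (fun h0 => e0 (by rw [← h6, h0, zero_mul]))
    have : k = e - (2 * n a + 1)⁻¹ • a := by
      calc k = k * (e * y * (e - (2 * n a + 1)⁻¹ • a)) := by rw [h6, h1 k hk]
        _ = e * (e - (2 * n a + 1)⁻¹ • a) := by rw [← mul_assoc, h8]
        _ = _ := by rw [mul_sub, ee, mul_smul_comm, h2]
    exact this ▸ hk
  intro a ha h2
  by_cases a0 : a = 0
  · exact ⟨0, by simp [a0]⟩
  have hp := h.pos (g.sub ha) a0
  have hT : IsCompact {t : ℝ | 0 ≤ t ∧ e - t • a ∈ C} := by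
    refine (isCompact_Icc (a := 0) (b := n e / n a)).of_isClosed_subset
      (isClosed_Ici.inter (g.cl.preimage (continuous_const.sub (continuous_id.smul
        continuous_const)))) fun t ht => ⟨ht.1, ?_⟩
    have := h.n0 _ (g.sub ht.2)
    rw [map_sub, map_smul, smul_eq_mul] at this
    rw [le_div_iff₀ hp]; linarith
  obtain ⟨s, hs, hm⟩ := hT.exists_isGreatest ⟨0, le_rfl, by simpa using he⟩
  by_cases hx : e - s • a = 0
  · have h3 : e = s • a := sub_eq_zero.1 hx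
    have s0 : s ≠ 0 := fun h0 => e0 (by rw [h3, h0, zero_smul])
    exact ⟨s⁻¹, by rw [h3, smul_smul, inv_mul_cancel₀ s0, one_smul]⟩
  exfalso
  have h3 : e * (e - s • a) = e - s • a := by rw [mul_sub, ee, mul_smul_comm, h2]
  obtain ⟨k, hk, h4, h5⟩ := inv _ hs.2 h3 hx
  obtain ⟨k', hk', h6, h7⟩ := inv k hk h4 fun h0 => e0 (by rw [← h5, h0, zero_mul])
  have h8 : k' = e - s • a := by
    calc k' = k' * (k * (e - s • a)) := by rw [h5, h1 k' hk']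
      _ = _ := by rw [← mul_assoc, h7, h3]
  obtain ⟨t, ht, h9⟩ := small (k * a) (g.mul k (g.sub hk) a ha) (by rw [← mul_assoc, h4])
  have h10 := g.mul k' (g.sub hk') _ h9
  rw [mul_sub, h1 k' hk', mul_smul_comm, ← mul_assoc, h7, h2, h8, sub_sub, ← add_smul] at h10
  have := hm ⟨by linarith [hs.1], h10⟩
  linarith

theorem stepA [LocallyConvexSpace ℝ M] (h : Hyp P n) {U : Set M} (hU : Good P n U)
    (hU2 : ∀ x ∈ U, ∀ y ∈ P, x * y ∈ U) :
    (∃ X : M, X ≠ 0 ∧ ∀ a, X * a * X = 0) ∨ ∃ e ∈ U, e ≠ 0 ∧ e * e = e ∧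
      (∀ a ∈ P, ∃ c : ℝ, e * a * e = c • e) ∧
      ∀ a ∈ P, ∀ b ∈ P, ∀ c : ℝ, a * e + b * e = c • e → ∃ t : ℝ, a * e = t • e := by
  obtain ⟨C, hCU, hC⟩ := ex_min h hU
  have g := hC.prop
  obtain ⟨θ, hθ⟩ := (g.cp1 h).extremePoints_nonempty g.ne
  rw [mem_extremePoints_iff_left] at hθ
  obtain ⟨⟨hθ, n1⟩, hx⟩ := hθ
  have θ0 : θ ≠ 0 := fun h0 => by simp [h0] at n1
  have ext : ∀ a ∈ C, ∀ b ∈ C, ∀ c : ℝ, a + b = c • θ → ∃ t : ℝ, a = t • θ := by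
    intro a ha b hb c hc
    by_cases a0 : a = 0
    · exact ⟨0, by simp [a0]⟩
    by_cases b0 : b = 0
    · exact ⟨c, by simpa [b0] using hc⟩
    have h1 := h.pos (g.sub ha) a0
    have h2 := h.pos (g.sub hb) b0
    have h3 : n a + n b = c := by simpa [n1] using congrArg n hc
    have h4 : 0 < c := by linarith
    have := hx _ (norm1 h g ha a0) _ (norm1 h g hb b0) ⟨n a / c, n b / c, by positivity,
      by positivity, by rw [← add_div, h3, div_self h4.ne'], by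
        rw [smul_smul, smul_smul, div_mul_comm, div_mul_comm (n b), div_eq_mul_inv,
          div_eq_mul_inv, mul_comm (n a)⁻¹, mul_comm (n b)⁻¹, mul_assoc, mul_assoc,
          inv_mul_cancel₀ h1.ne', inv_mul_cancel₀ h2.ne', mul_one, ← smul_add, hc, smul_smul,
          inv_mul_cancel₀ h4.ne', one_smul]⟩
    exact ⟨n a, by rw [← this, smul_smul, mul_inv_cancel₀ h1.ne', one_smul]⟩
  by_cases hd : ∀ a ∈ P, θ * a * θ = 0
  · refine Or.inl ⟨θ, θ0, fun x => ?_⟩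
    obtain ⟨a, ha, b, hb, rfl⟩ := h.sp x
    rw [mul_sub, sub_mul, hd a ha, hd b hb, sub_zero]
  right
  push Not at hd
  obtain ⟨a, ha, h0⟩ := hd
  have hz := g.mul a ha θ hθ
  rw [mul_assoc] at h0
  obtain ⟨⟨c, hc, h1⟩, h2⟩ := surj h hC hz ⟨θ, hθ, h0⟩
  obtain ⟨e, he, ee⟩ := exists_idempotent_in_compact_subsemigroup h.cR
    {x | x ∈ C ∧ x * (a * θ) = a * θ} (h2 _ hz) ((g.cp h (n (a * θ) / c)).of_isClosed_subset
      (g.cl.inter (isClosed_eq (h.cR _) continuous_const)) fun x hx => ⟨hx.1, by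
        rw [le_div_iff₀ hc, mul_comm, ← hx.2]; exact h1 x hx.1⟩)
    fun x hx y hy => ⟨g.mul x (g.sub hx.1) y hy.1, by rw [mul_assoc, hy.2, hx.2]⟩
  have z0 : a * θ ≠ 0 := fun h3 => h0 (by rw [h3, mul_zero])
  have e0 : e ≠ 0 := fun h3 => z0 (by rw [← he.2, h3, zero_mul])
  obtain ⟨h3, h4⟩ := line h hC he.1 e0 ee
  obtain ⟨t, ht⟩ := h4 _ hz he.2
  have t0 : 0 < t := by
    have h5 := h.pos (g.sub hz) z0
    rw [ht, map_smul, smul_eq_mul] at h5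
    exact (pos_iff_pos_of_mul_pos h5).2 (h.pos (g.sub he.1) e0)
  obtain ⟨u, hu, h5⟩ : ∃ u ∈ P, u * θ = e := ⟨t⁻¹ • a, h.smP (inv_pos.2 t0).le ha, by
    rw [smul_mul_assoc, ht, smul_smul, inv_mul_cancel₀ t0.ne', one_smul]⟩
  have h6 : θ * u * θ = θ := by rw [mul_assoc, h5, h3 θ hθ]
  refine ⟨θ * u, hU2 θ (hCU hθ) u hu, fun h7 => θ0 (by rw [← h6, h7, zero_mul]),
    by rw [← mul_assoc, h6], fun b hb => ?_, fun b hb b' hb' c hc => ?_⟩
  · have h7 := g.mul _ (h.mul u hu b hb) θ hθ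
    obtain ⟨s, hs⟩ := h4 _ (g.mul e (g.sub he.1) _ h7) (by rw [← mul_assoc, ee])
    refine ⟨s, ?_⟩
    calc θ * u * b * (θ * u) = θ * (e * (u * b * θ)) * u := by
          rw [← mul_assoc θ e, h3 θ hθ]; simp only [mul_assoc]
      _ = _ := by rw [hs, mul_smul_comm, h3 θ hθ, smul_mul_assoc]
  · have h7 := congrArg (· * θ) hc
    simp only [add_mul, smul_mul_assoc, mul_assoc _ (θ * u), h6] at h7
    obtain ⟨s, hs⟩ := ext _ (g.mul b hb θ hθ) _ (g.mul b' hb' θ hθ) c h7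
    exact ⟨s, by rw [← mul_assoc, hs, smul_mul_assoc]⟩

end Pool.Agent.H.MP_cecf91_an
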