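import Pool.Agent.H.MP_cecf91_an.A

set_option autoImplicit false
set_option linter.unusedSectionVars false

namespace Pool.Agent.H.MP_cecf91_an
open Set BoundedContinuousFunction

lemma lcW (E : Type*) [NormedAddCommGroup E] [NormedSpace ℝ E] :
    LocallyConvexSpace ℝ (WeakDual ℝ E) :=
  (WeakDual.withSeminorms ℝ E).toLocallyConvexSpace

lemma sepG {E : Type*} [NormedAddCommGroup E] [NormedSpace ℝ E] {K : Set (WeakDual ℝ E)}
    (h1 : Convex ℝ K) (h2 : IsClosed K) {Φ : WeakDual ℝ E} (h : Φ ∉ K) :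
    ∃ (β : E) (u : ℝ), (∀ a ∈ K, a β < u) ∧ u < Φ β := by
  have := lcW E
  obtain ⟨f, u, h3, h4⟩ := geometric_hahn_banach_closed_point h1 h2 h
  obtain ⟨β, rfl⟩ := LinearMap.dualEmbedding_surjective (topDualPairing ℝ E) f
  exact ⟨β, u, h3, h4⟩

structure Coc (G : Type*) [Group G] where
  w : G → G → ℝ
  pos : ∀ s t, 0 < w s t
  le1 : ∀ s t, w s t ≤ 1
  coc : ∀ s t u, w s t * w (s * t) u = w t u * w s (t * u)
  ol : ∀ t, w 1 t = 1
  or : ∀ t, w t 1 = 1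

variable {G : Type*} [Group G] [TopologicalSpace G] [DiscreteTopology G] (c : Coc G)

noncomputable def T (s : G) : (G →ᵇ ℝ) →L[ℝ] (G →ᵇ ℝ) :=
  LinearMap.mkContinuous
    { toFun := fun β => ofNormedAddCommGroupDiscrete (fun t => c.w s t * β (s * t)) ‖β‖ fun t => by
        rw [norm_mul, Real.norm_of_nonneg (c.pos s t).le]
        exact (mul_le_of_le_one_left (norm_nonneg _) (c.le1 s t)).trans (β.norm_coe_le_norm _)
      map_add' := fun β γ => by ext t; simp [mul_add]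
      map_smul' := fun a β => by ext t; simp [mul_left_comm] } 1 fun β => by
    rw [one_mul]
    refine (norm_le (norm_nonneg _)).2 fun t => ?_
    change ‖c.w s t * β (s * t)‖ ≤ _
    rw [norm_mul, Real.norm_of_nonneg (c.pos s t).le]
    exact (mul_le_of_le_one_left (norm_nonneg _) (c.le1 s t)).trans (β.norm_coe_le_norm _)

@[simp] lemma T_apply (s t : G) (β : G →ᵇ ℝ) : T c s β t = c.w s t * β (s * t) := rfl

lemma T_norm (s : G) (β : G →ᵇ ℝ) : ‖T c s β‖ ≤ ‖β‖ :=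
  (norm_le (norm_nonneg _)).2 fun t => by
    rw [T_apply, norm_mul, Real.norm_of_nonneg (c.pos s t).le]
    exact (mul_le_of_le_one_left (norm_nonneg _) (c.le1 s t)).trans (β.norm_coe_le_norm _)

lemma act_bd (Φ : (G →ᵇ ℝ) →L[ℝ] ℝ) (β : G →ᵇ ℝ) (s : G) : ‖Φ (T c s β)‖ ≤ ‖Φ‖ * ‖β‖ :=
  (Φ.le_opNorm _).trans (mul_le_mul_of_nonneg_left (T_norm c s β) (norm_nonneg _))

noncomputable def act0 (Φ : (G →ᵇ ℝ) →L[ℝ] ℝ) : (G →ᵇ ℝ) →L[ℝ] (G →ᵇ ℝ) :=
  LinearMap.mkContinuous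
    { toFun := fun β => ofNormedAddCommGroupDiscrete (fun s => Φ (T c s β)) _ (act_bd c Φ β)
      map_add' := fun β γ => by ext t; simp
      map_smul' := fun a β => by ext t; simp } ‖Φ‖ fun β =>
    (norm_le (by positivity)).2 (act_bd c Φ β)

def MM (_c : Coc G) := WeakDual ℝ (G →ᵇ ℝ)

noncomputable instance : AddCommGroup (MM c) := inferInstanceAs (AddCommGroup (WeakDual ℝ (G →ᵇ ℝ)))
noncomputable instance : Module ℝ (MM c) := inferInstanceAs (Module ℝ (WeakDual ℝ (G →ᵇ ℝ)))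
noncomputable instance : TopologicalSpace (MM c) :=
  inferInstanceAs (TopologicalSpace (WeakDual ℝ (G →ᵇ ℝ)))
instance : T2Space (MM c) := inferInstanceAs (T2Space (WeakDual ℝ (G →ᵇ ℝ)))
instance : IsTopologicalAddGroup (MM c) :=
  inferInstanceAs (IsTopologicalAddGroup (WeakDual ℝ (G →ᵇ ℝ)))
instance : ContinuousSMul ℝ (MM c) := inferInstanceAs (ContinuousSMul ℝ (WeakDual ℝ (G →ᵇ ℝ)))
instance : LocallyConvexSpace ℝ (MM c) := lcW (G →ᵇ ℝ)

variable {c}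

def MM.f (Φ : MM c) : (G →ᵇ ℝ) →L[ℝ] ℝ := Φ

def mk (c : Coc G) (Φ : (G →ᵇ ℝ) →L[ℝ] ℝ) : MM c := Φ

@[simp] lemma mk_f (Φ : (G →ᵇ ℝ) →L[ℝ] ℝ) : (mk c Φ).f = Φ := rfl
@[simp] lemma add_f (Φ Ψ : MM c) : (Φ + Ψ).f = Φ.f + Ψ.f := rfl
@[simp] lemma sub_f (Φ Ψ : MM c) : (Φ - Ψ).f = Φ.f - Ψ.f := rfl
@[simp] lemma zero_f : (0 : MM c).f = 0 := rfl
@[simp] lemma smul_f (t : ℝ) (Ψ : MM c) : (t • Ψ).f = t • Ψ.f := rfl

lemma MM.ext' {Φ Ψ : MM c} (h : ∀ β, Φ.f β = Ψ.f β) : Φ = Ψ :=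
  ContinuousLinearMap.ext (f := Φ.f) (g := Ψ.f) h

lemma cev (β : G →ᵇ ℝ) : Continuous fun Φ : MM c => Φ.f β := WeakDual.eval_continuous β

noncomputable def act (Φ : MM c) : (G →ᵇ ℝ) →L[ℝ] (G →ᵇ ℝ) := act0 c Φ.f

@[simp] lemma act_apply (Φ : MM c) (β : G →ᵇ ℝ) (s : G) : act Φ β s = Φ.f (T c s β) := rfl

lemma TT (s t : G) (β : G →ᵇ ℝ) : T c t (T c s β) = c.w s t • T c (s * t) β := by
  ext u
  simp only [T_apply, coe_smul, smul_eq_mul, mul_assoc s t u]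
  rw [← mul_assoc (c.w t u), ← mul_assoc (c.w s t), c.coc]

lemma T_act (Φ : MM c) (s : G) (β : G →ᵇ ℝ) : T c s (act Φ β) = act Φ (T c s β) := by
  ext t; simp [TT]

lemma T_one (β : G →ᵇ ℝ) : T c 1 β = β := by ext t; simp [c.ol]

noncomputable def dl (c : Coc G) (x : G) : MM c := mk c (evalCLM ℝ x)

@[simp] lemma dl_f (x : G) (β : G →ᵇ ℝ) : (dl c x).f β = β x := rfl

noncomputable instance : Mul (MM c) := ⟨fun Φ Ψ => mk c (Φ.f ∘L act Ψ)⟩
noncomputable instance : One (MM c) := ⟨dl c 1⟩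

lemma mul_f (Φ Ψ : MM c) (β : G →ᵇ ℝ) : (Φ * Ψ).f β = Φ.f (act Ψ β) := rfl
lemma one_f (β : G →ᵇ ℝ) : (1 : MM c).f β = β 1 := rfl

lemma act_mul (Φ Ψ : MM c) (β : G →ᵇ ℝ) : act (Φ * Ψ) β = act Φ (act Ψ β) := by
  ext s; simp [mul_f, T_act]

lemma act_add (Φ Ψ : MM c) (β : G →ᵇ ℝ) : act (Φ + Ψ) β = act Φ β + act Ψ β := by
  ext s; simp

lemma act_smul (t : ℝ) (Ψ : MM c) (β : G →ᵇ ℝ) : act (t • Ψ) β = t • act Ψ β := by
  ext s; simp

lemma act_zero (β : G →ᵇ ℝ) : act (0 : MM c) β = 0 := by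
  ext s; simp

noncomputable instance : Ring (MM c) :=
  { (inferInstance : AddCommGroup (MM c)) with
    mul_assoc := fun _ _ _ => MM.ext' fun β => by simp only [mul_f, act_mul]
    one_mul := fun _ => MM.ext' fun β => by simp [mul_f, one_f, T_one]
    mul_one := fun a => MM.ext' fun β => by
      rw [mul_f]; congr 1; ext s; simp [one_f, c.or]
    left_distrib := fun _ _ _ => MM.ext' fun β => by simp [mul_f, act_add]
    right_distrib := fun _ _ _ => MM.ext' fun β => by simp [mul_f]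
    zero_mul := fun _ => MM.ext' fun β => by simp [mul_f]
    mul_zero := fun _ => MM.ext' fun β => by simp [mul_f, act_zero] }

noncomputable instance : Algebra ℝ (MM c) :=
  Algebra.ofModule (fun _ _ _ => MM.ext' fun β => by simp [mul_f])
    fun _ _ _ => MM.ext' fun β => by simp [mul_f, act_smul]

def PP (c : Coc G) : Set (MM c) := {Φ | ∀ β : G →ᵇ ℝ, (∀ x, 0 ≤ β x) → 0 ≤ Φ.f β}

noncomputable def nn (c : Coc G) : MM c →L[ℝ] ℝ :=
  { toFun := fun Φ => Φ.f 1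
    map_add' := fun _ _ => rfl
    map_smul' := fun _ _ => rfl
    cont := cev 1 }

@[simp] lemma nn_apply (Φ : MM c) : nn c Φ = Φ.f 1 := rfl

lemma mono {Φ : MM c} (h : Φ ∈ PP c) {β γ : G →ᵇ ℝ} (h1 : ∀ x, β x ≤ γ x) : Φ.f β ≤ Φ.f γ := by
  have := h (γ - β) fun x => by simp [h1 x]
  rw [map_sub] at this; linarith

lemma abs_le' {Φ : MM c} (h : Φ ∈ PP c) {β γ : G →ᵇ ℝ} (h1 : ∀ x, |β x| ≤ γ x) :
    |Φ.f β| ≤ Φ.f γ := by
  have h2 := mono h (β := β) (γ := γ) fun x => (abs_le.1 (h1 x)).2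
  have h3 := mono h (β := -γ) (γ := β) fun x => (abs_le.1 (h1 x)).1
  rw [map_neg] at h3
  exact abs_le.2 ⟨h3, h2⟩

lemma bd {Φ : MM c} (h : Φ ∈ PP c) (β : G →ᵇ ℝ) : ‖Φ.f β‖ ≤ Φ.f 1 * ‖β‖ := by
  have := abs_le' h (β := β) (γ := ‖β‖ • 1) fun x => by simpa using β.norm_coe_le_norm x
  rwa [map_smul, smul_eq_mul, mul_comm] at this

lemma act_pos {Φ : MM c} (h : Φ ∈ PP c) {β : G →ᵇ ℝ} (h1 : ∀ x, 0 ≤ β x) (s : G) :
    0 ≤ act Φ β s := h _ fun t => mul_nonneg (c.pos s t).le (h1 _)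

lemma dl_mem (x : G) : dl c x ∈ PP c := fun _ h => h x

lemma PPcl : IsClosed (PP c) := by
  simp only [PP, ofPred_forall]
  exact isClosed_iInter fun β => isClosed_iInter fun _ => isClosed_le continuous_const (cev β)

lemma PPcp (R : ℝ) : IsCompact {x | x ∈ PP c ∧ nn c x ≤ R} :=
  (WeakDual.isCompact_closedBall (𝕜 := ℝ) (E := G →ᵇ ℝ) 0 R).of_isClosed_subset
    (PPcl.inter (isClosed_le (nn c).continuous continuous_const)) fun (x : MM c) hx => by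
      have h1 : 0 ≤ x.f 1 := hx.1 _ fun _ => zero_le_one
      exact mem_closedBall_zero_iff.2 (ContinuousLinearMap.opNorm_le_bound (f := x.f)
        (h1.trans hx.2) fun β => (bd hx.1 β).trans (mul_le_mul_of_nonneg_right hx.2 (norm_nonneg _)))

lemma sepW {K : Set (MM c)} (h1 : Convex ℝ K) (h2 : IsClosed K) {Φ : MM c} (h : Φ ∉ K) :
    ∃ (β : G →ᵇ ℝ) (u : ℝ), (∀ a ∈ K, a.f β < u) ∧ u < Φ.f β :=
  sepG (E := G →ᵇ ℝ) h1 h2 h

lemma cvP (R : ℝ) : Convex ℝ {x | x ∈ PP c ∧ nn c x ≤ R} := fun x hx y hy a b ha hb hab =>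
  ⟨fun β h => add_nonneg (mul_nonneg ha (hx.1 β h)) (mul_nonneg hb (hy.1 β h)), by
    have h1 := hx.2
    have h2 := hy.2
    rw [map_add, map_smul, map_smul, smul_eq_mul, smul_eq_mul]
    calc _ ≤ a * R + b * R := by gcongr
      _ = R := by rw [← add_mul, hab, one_mul]⟩

lemma hyp (c : Coc G) : Hyp (PP c) (nn c) where
  cR y := WeakDual.continuous_of_continuous_eval fun β => cev (act y β)
  cl := PPcl
  add x hx y hy β h := add_nonneg (hx β h) (hy β h)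
  mul x hx y hy β h := hx _ (act_pos hy h)
  sm t ht β h := mul_nonneg ht (h 1)
  n0 x hx := hx _ fun _ => zero_le_one
  n1 x hx h := MM.ext' fun β => norm_le_zero_iff.1
    ((bd hx β).trans (mul_nonpos_of_nonpos_of_nonneg h (norm_nonneg _)))
  nm x hx y hy := by
    have := mono hx (β := act y 1) (γ := y.f 1 • 1) fun s => by
      simpa using mono hy (β := T c s 1) (γ := 1) fun t => by simpa using c.le1 s t
    rwa [map_smul, smul_eq_mul, mul_comm] at this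
  cp := PPcp
  sp x := by
    by_contra hn
    have hK := PPcp (c := c) ‖x.f‖
    obtain ⟨β, u, h1, h2⟩ := sepW ((cvP ‖x.f‖).sub (cvP ‖x.f‖))
      (IsCompact.isClosed (by
        rw [← image2_sub, ← image_prod]; exact (hK.prod hK).image continuous_sub))
      (Φ := x) (by
        rintro ⟨a, ha, b, hb, h⟩
        exact hn ⟨a, ha.1, b, hb.1, h.symm⟩)
    have h0 : (0 : MM c) ∈ {y | y ∈ PP c ∧ nn c y ≤ ‖x.f‖} := ⟨fun _ _ => le_rfl, x.f.opNorm_nonneg⟩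
    have h3 : ∀ s, ‖x.f‖ • dl c s ∈ {y | y ∈ PP c ∧ nn c y ≤ ‖x.f‖} := fun s =>
      ⟨fun β h => mul_nonneg x.f.opNorm_nonneg (h s), by simp⟩
    have u0 : 0 < u := by simpa using h1 _ (sub_mem_sub h0 h0)
    have h4 : ‖‖x.f‖ • β‖ ≤ u := (norm_le u0.le).2 fun s => by
      have h5 : ‖x.f‖ * β s - 0 < u := h1 _ (sub_mem_sub (h3 s) h0)
      have h6 : 0 - ‖x.f‖ * β s < u := h1 _ (sub_mem_sub h0 (h3 s))
      exact (abs_le (a := ‖x.f‖ * β s)).2 ⟨by linarith, by linarith⟩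
    rw [norm_smul, Real.norm_of_nonneg x.f.opNorm_nonneg] at h4
    linarith [le_abs_self (x.f β), x.f.le_opNorm β, Real.norm_eq_abs (x.f β)]

end Pool.Agent.H.MP_cecf91_an
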