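import Pool.Agent.H.MP_cecf91_an.B

set_option autoImplicit false
set_option linter.unusedSectionVars false

namespace Pool.Agent.H.MP_cecf91_an
open Set BoundedContinuousFunction Cardinal

universe u

lemma fin_lt {G : Type u} [Infinite G] {s : Set G} (h : s.Finite) : #s < #G :=
  (lt_aleph0_iff_set_finite.2 h).trans_le (aleph0_le_mk G)

lemma un_lt {G : Type u} [Infinite G] {s t : Set G} (h : #s < #G) (h' : #t < #G) :
    #(s ∪ t : Set G) < #G :=
  (mk_union_le s t).trans_lt (add_lt_of_lt (aleph0_le_mk G) h h')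

lemma sm_union {G ι : Type u} [Infinite G] (h : #ι < #G) (A : ι → Finset G) :
    #(⋃ i, (A i : Set G)) < #G := by
  cases finite_or_infinite ι
  · exact fin_lt (finite_iUnion fun i => (A i).finite_toSet)
  · exact (mk_iUnion_le _).trans_lt (mul_lt_of_lt (aleph0_le_mk G) h (((ciSup_le' fun i =>
      (lt_aleph0_iff_set_finite.2 (A i).finite_toSet).le).trans (aleph0_le_mk ι)).trans_lt h))

lemma disj {G ι : Type u} [Infinite G] (hι : #ι ≤ #G) (S : ι → Finset G → Prop)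
    (h : ∀ i (D : Set G), #D < #G → ∃ F, S i F ∧ Disjoint (F : Set G) D) :
    ∃ F : ι → Finset G, (∀ i, S i (F i)) ∧
      Pairwise fun i j => Disjoint (F i : Set G) (F j : Set G) := by
  obtain ⟨_, wo, hr⟩ := exists_ord_eq_type_lt ι
  have sm : ∀ (i : ι) (p : ∀ j, j < i → Finset G), #(⋃ j : Iio i, (p j.1 j.2 : Set G)) < #G :=
    fun i p => sm_union ((mk_Iio_lt i hr).trans_le hι) _
  let F : ι → Finset G := wo.wf.fix fun i p => (h i _ (sm i p)).choose
  have hF : ∀ i, S i (F i) ∧ Disjoint (F i : Set G) (⋃ j : Iio i, (F j.1 : Set G)) := fun i => by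
    have : F i = (h i _ (sm i fun j _ => F j)).choose := wo.wf.fix_eq _ i
    rw [this]
    exact (h i _ (sm i fun j _ => F j)).choose_spec
  refine ⟨F, fun i => (hF i).1, fun i j hij => ?_⟩
  rcases lt_or_gt_of_ne hij with h1 | h1
  · exact ((hF j).2.mono_right (subset_iUnion (fun k : Iio j => (F k.1 : Set G)) ⟨i, h1⟩)).symm
  · exact (hF i).2.mono_right (subset_iUnion (fun k : Iio i => (F k.1 : Set G)) ⟨j, h1⟩)

lemma three {G : Type*} [Group G] {g : G} (hg : g ≠ 1) : ∃ k : G → Fin 3, ∀ x, k (g * x) ≠ k x := by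
  classical
  obtain ⟨s, hs⟩ := zorn_subset {s : Set G | ∀ x ∈ s, g * x ∉ s} fun c hc hch =>
    ⟨⋃₀ c, by
      rintro x ⟨s, hs, hx⟩ ⟨t, ht, hy⟩
      rcases hch.total hs ht with h | h
      · exact hc ht x (h hx) hy
      · exact hc hs x hx (h hy), fun s hs => subset_sUnion_of_mem hs⟩
  refine ⟨fun x => if x ∈ s then 0 else if g * x ∈ s then 1 else 2, fun x => ?_⟩
  by_cases h1 : x ∈ s
  · simp only [h1, hs.prop x h1, if_true, if_false]
    split_ifs <;> simp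
  by_cases h2 : g * x ∈ s
  · simp [h1, h2]
  by_cases h3 : g * (g * x) ∈ s
  · simp [h1, h2, h3]
  refine absurd (hs.le_of_ge (y := insert (g * x) s) ?_ (subset_insert _ _) (mem_insert _ _)) h2
  rintro y (rfl | hy) (h | h)
  · exact hg (by simpa using h)
  · exact h3 h
  · exact h1 (mul_left_cancel h ▸ hy)
  · exact hs.prop y hy h

variable {G : Type u} [Group G] [TopologicalSpace G] [DiscreteTopology G] {c : Coc G}

noncomputable def ind (D : Set G) : G →ᵇ ℝ :=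
  ofNormedAddCommGroupDiscrete (D.indicator 1) 1 fun x => by
    by_cases h : x ∈ D <;> simp [h]

lemma ind1 {D : Set G} {x : G} (h : x ∈ D) : ind D x = 1 := indicator_of_mem h _
lemma ind0 {D : Set G} {x : G} (h : x ∉ D) : ind D x = 0 := indicator_of_notMem h _
lemma ind_nn (D : Set G) (x : G) : 0 ≤ ind D x := by
  by_cases h : x ∈ D <;> simp [ind0, ind1, h]
lemma ind_le (D : Set G) (x : G) : ind D x ≤ 1 := by
  by_cases h : x ∈ D <;> simp [ind0, ind1, h]

lemma kill {Φ : MM c} (h : Φ ∈ PP c) {D : Set G} (h1 : Φ.f (ind D) = 0) {β : G →ᵇ ℝ}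
    (h2 : ∀ x, x ∉ D → β x = 0) : Φ.f β = 0 := by
  have := abs_le' h (β := β) (γ := ‖β‖ • ind D) fun x => by
    by_cases hx : x ∈ D
    · simpa [ind1 hx] using β.norm_coe_le_norm x
    · simp [ind0 hx, h2 x hx]
  rw [map_smul, h1, smul_zero] at this
  exact abs_nonpos_iff.1 this

def UU (c : Coc G) : Set (MM c) := {Φ | Φ ∈ PP c ∧ ∀ D : Set G, #D < #G → Φ.f (ind D) = 0}

variable [Infinite G]

lemma exx {D : Set G} (h : #D < #G) : ∃ x, x ∉ D := by
  by_contra hn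
  push Not at hn
  rw [eq_univ_of_forall hn, mk_univ] at h
  exact h.false

lemma goodU (c : Coc G) : Good (PP c) (nn c) (UU c) where
  cl := PPcl.inter (by
    change IsClosed {Φ : MM c | ∀ D : Set G, #D < #G → Φ.f (ind D) = 0}
    simp only [ofPred_forall]
    exact isClosed_iInter fun _ => isClosed_iInter fun _ => isClosed_eq (cev _) continuous_const)
  sub _ h := h.1
  add x hx y hy := ⟨(hyp c).add x hx.1 y hy.1, fun D hD => by simp [hx.2 D hD, hy.2 D hD]⟩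
  mul x hx y hy := ⟨(hyp c).mul x hx y hy.1, fun D hD => by
    have : act y (ind D) = 0 := by
      ext s
      exact kill hy.1 (hy.2 ((s * ·) ⁻¹' D) ((mk_preimage_of_injective _ _
        (mul_right_injective s)).trans_lt hD)) fun t ht => by simp [ind0 (D := D) ht]
    rw [mul_f, this, map_zero]⟩
  ne := by
    have : Nonempty {D : Set G // #D < #G} := ⟨⟨∅, fin_lt finite_empty⟩⟩
    have h1 : ∀ D : Set G, IsClosed {x : MM c | x.f 1 = 1 ∧ x.f (ind D) = 0} := fun D =>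
      (isClosed_eq (cev _) continuous_const).inter (isClosed_eq (cev _) continuous_const)
    obtain ⟨x, hx⟩ := IsCompact.nonempty_iInter_of_directed_nonempty_isCompact_isClosed
      (fun D : {D : Set G // #D < #G} =>
        {x | x ∈ PP c ∧ nn c x ≤ 1} ∩ {x | x.f 1 = 1 ∧ x.f (ind D.1) = 0})
      (fun s t => ⟨⟨s.1 ∪ t.1, un_lt s.2 t.2⟩,
        fun x hx => ⟨hx.1, hx.2.1, kill hx.1.1 hx.2.2 fun y hy => ind0 fun h => hy (Or.inl h)⟩,
        fun x hx => ⟨hx.1, hx.2.1, kill hx.1.1 hx.2.2 fun y hy => ind0 fun h => hy (Or.inr h)⟩⟩)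
      (fun D => by
        obtain ⟨x, hx⟩ := exx D.2
        exact ⟨dl c x, ⟨dl_mem x, le_rfl⟩, rfl, ind0 hx⟩)
      (fun D => (PPcp 1).inter_right (h1 _)) fun D => (PPcp 1).isClosed.inter (h1 _)
    rw [mem_iInter] at hx
    have := hx (Classical.arbitrary _)
    exact ⟨x, ⟨this.1.1, fun D hD => (hx ⟨D, hD⟩).2.2⟩, this.2.1⟩

lemma sm_level {Φ : MM c} (h : Φ ∈ PP c) {D : Set G} (hD : #D < #G) {ε : ℝ} (hε : 0 < ε) :
    #{s | ε ≤ Φ.f (ind ((s * ·) ⁻¹' D))} < #G := by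
  classical
  let Q : Finset G → Prop := fun F => (∀ s ∈ F, ε ≤ Φ.f (ind ((s * ·) ⁻¹' D))) ∧
    ∀ s ∈ F, ∀ s' ∈ F, ∀ t, s * t ∈ D → s' * t ∈ D → s = s'
  have hb : ∀ F, Q F → (F.card : ℝ) * ε ≤ Φ.f 1 := fun F hF => by
    calc (F.card : ℝ) * ε ≤ ∑ s ∈ F, Φ.f (ind ((s * ·) ⁻¹' D)) := by
          simpa using Finset.card_nsmul_le_sum F _ ε hF.1
      _ = Φ.f (∑ s ∈ F, ind ((s * ·) ⁻¹' D)) := (map_sum _ _ _).symm
      _ ≤ _ := mono h fun t => by
          rw [BoundedContinuousFunction.sum_apply]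
          by_cases h1 : ∃ s ∈ F, s * t ∈ D
          · obtain ⟨s, hs, h1⟩ := h1
            exact (Finset.sum_eq_single_of_mem s hs fun s' hs' h2 =>
              ind0 fun h3 => h2 (hF.2 s' hs' s hs t h3 h1)).trans_le (ind_le _ _)
          · exact (Finset.sum_eq_zero fun s hs => ind0 fun h3 => h1 ⟨s, hs, h3⟩).trans_le
              zero_le_one
  obtain ⟨N, ⟨F, hF, rfl⟩, hm⟩ := (BddAbove.exists_isGreatest_of_nonempty
    (S := {N : ℕ | ∃ F, Q F ∧ F.card = N}) ⟨⌈Φ.f 1 / ε⌉₊, by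
      rintro _ ⟨F, hF, rfl⟩
      exact_mod_cast ((le_div_iff₀ hε).2 (hb F hF)).trans (Nat.le_ceil _)⟩
      ⟨0, ∅, by simp [Q], rfl⟩)
  have h1 : {s | ε ≤ Φ.f (ind ((s * ·) ⁻¹' D))} ⊆ (F : Set G) ∪
      range fun p : D × D × F => p.1.1 * p.2.1.1⁻¹ * p.2.2.1 := fun s hs => by
    by_contra hn
    have h2 : s ∉ F := fun h => hn (Or.inl h)
    have h3 : ∀ s' ∈ F, ∀ t, s * t ∈ D → s' * t ∈ D → False := fun s' hs' t h4 h5 =>
      hn (Or.inr ⟨(⟨_, h4⟩, ⟨_, h5⟩, ⟨_, hs'⟩), by simp⟩)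
    have := hm ⟨insert s F, ⟨by simpa using ⟨hs, hF.1⟩, fun a ha b hb t h4 h5 => by
      rcases Finset.mem_insert.1 ha with ha | ha <;> rcases Finset.mem_insert.1 hb with hb | hb
      · rw [ha, hb]
      · exact (h3 b hb t (ha ▸ h4) h5).elim
      · exact (h3 a ha t (hb ▸ h5) h4).elim
      · exact hF.2 a ha b hb t h4 h5⟩, rfl⟩
    rw [Finset.card_insert_of_notMem h2] at this
    omega
  refine (mk_le_mk_of_subset h1).trans_lt (un_lt (fin_lt F.finite_toSet) (mk_range_le.trans_lt ?_))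
  simp only [mk_prod, lift_id]
  exact mul_lt_of_lt (aleph0_le_mk G) hD (mul_lt_of_lt (aleph0_le_mk G) hD (fin_lt F.finite_toSet))

lemma U_right (x : MM c) (hx : x ∈ UU c) (y : MM c) (hy : y ∈ PP c) : x * y ∈ UU c := by
  refine ⟨(hyp c).mul x hx.1 y hy, fun D hD => le_antisymm (le_of_forall_pos_le_add fun ε hε => ?_)
    ((hyp c).mul x hx.1 y hy _ (ind_nn D))⟩
  have h0 : 0 ≤ x.f 1 := (hyp c).n0 x hx.1
  have h1 : 0 < ε / (x.f 1 + 1) := by positivity
  have h2 := mono hx.1 (β := act y (ind D)) (γ := (ε / (x.f 1 + 1)) • 1 +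
    y.f 1 • ind {s | ε / (x.f 1 + 1) ≤ y.f (ind ((s * ·) ⁻¹' D))}) fun s => by
      have h3 : act y (ind D) s ≤ y.f (ind ((s * ·) ⁻¹' D)) := mono hy fun t => by
        by_cases h : s * t ∈ D
        · simp [ind1 h, ind1 (D := (s * ·) ⁻¹' D) h, c.le1]
        · simp [ind0 h, ind_nn]
      have h4 : y.f (ind ((s * ·) ⁻¹' D)) ≤ y.f 1 := mono hy (ind_le _)
      simp only [coe_add, coe_smul, Pi.add_apply, smul_eq_mul, coe_one, Pi.one_apply, mul_one]
      by_cases h : s ∈ {s | ε / (x.f 1 + 1) ≤ y.f (ind ((s * ·) ⁻¹' D))}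
      · rw [ind1 h]; linarith
      · rw [ind0 h]; rw [mem_ofPred_eq, not_le] at h; linarith
  rw [map_add, map_smul, map_smul, hx.2 _ (sm_level hy hD h1), smul_zero, add_zero, smul_eq_mul,
    div_mul_eq_mul_div, le_div_iff₀ (by positivity)] at h2
  rw [mul_f, zero_add]
  by_contra hn
  push Not at hn
  nlinarith

lemma approx {x : MM c} (hx : x ∈ UU c) {D : Set G} (hD : #D < #G) :
    x ∈ closure {y : MM c | (y ∈ PP c ∧ nn c y ≤ nn c x) ∧
      ∃ S : Finset G, Disjoint (S : Set G) D ∧ y.f (ind (S : Set G)ᶜ) = 0} := by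
  classical
  by_contra hn
  have hcv : Convex ℝ {y : MM c | (y ∈ PP c ∧ nn c y ≤ nn c x) ∧
      ∃ S : Finset G, Disjoint (S : Set G) D ∧ y.f (ind (S : Set G)ᶜ) = 0} := by
    rintro y ⟨h1, S, h2, h3⟩ z ⟨h4, S', h5, h6⟩ a b ha hb hab
    refine ⟨cvP _ h1 h4 ha hb hab, S ∪ S', by simpa using ⟨h2, h5⟩, ?_⟩
    have h7 := kill h1.1 h3 (β := ind ((S ∪ S' : Finset G) : Set G)ᶜ) fun t ht =>
      ind0 (by simp at ht; simp [ht])
    have h8 := kill h4.1 h6 (β := ind ((S ∪ S' : Finset G) : Set G)ᶜ) fun t ht =>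
      ind0 (by simp at ht; simp [ht])
    change a * y.f _ + b * z.f _ = 0
    rw [h7, h8]; simp
  obtain ⟨β, u, h1, h2⟩ := sepW hcv.closure isClosed_closure hn
  have h0 : 0 ≤ x.f 1 := (hyp c).n0 x hx.1
  have u0 : 0 < u := by
    simpa using h1 0 (subset_closure ⟨⟨fun _ _ => le_rfl, h0⟩, ∅, by simp, rfl⟩)
  have h3 : ∀ s, s ∉ D → x.f 1 * β s < u := fun s hs => h1 (x.f 1 • dl c s) (subset_closure
    ⟨⟨(hyp c).smP h0 (dl_mem s), by simp⟩, {s}, by simpa using hs, by simp [ind0]⟩)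
  rcases h0.eq_or_lt with h4 | h4
  · rw [(hyp c).n1 x hx.1 h4.ge] at h2
    exact absurd (u0.trans h2) (lt_irrefl _)
  have h5 := mono hx.1 (β := β) (γ := (u / x.f 1) • 1 + ‖β‖ • ind D) fun s => by
    simp only [coe_add, coe_smul, Pi.add_apply, smul_eq_mul, coe_one, Pi.one_apply, mul_one]
    by_cases h : s ∈ D
    · rw [ind1 h]
      linarith [div_pos u0 h4, le_abs_self (β s), β.norm_coe_le_norm s, Real.norm_eq_abs (β s)]
    · rw [ind0 h, mul_zero, add_zero, le_div_iff₀ h4, mul_comm]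
      exact (h3 s h).le
  rw [map_add, map_smul, map_smul, hx.2 D hD, smul_zero, add_zero, smul_eq_mul,
    div_mul_cancel₀ _ h4.ne'] at h5
  linarith

end Pool.Agent.H.MP_cecf91_an
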