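import Pool.Agent.H.MP_cecf91_an.C

set_option autoImplicit false
set_option linter.unusedSectionVars false

namespace Pool.Agent.H.MP_cecf91_an
open Set BoundedContinuousFunction Cardinal

universe u

variable {G : Type u} [Group G] [TopologicalSpace G] [DiscreteTopology G] {c : Coc G} [Infinite G]

lemma clus {J : Type*} [Nonempty J] [SemilatticeSup J] (R : ℝ) (Z : J → Set (MM c))
    (h1 : Antitone Z) (h2 : ∀ j, IsClosed (Z j)) (h3 : ∀ j, ∃ x ∈ PP c, x.f 1 ≤ R ∧ x ∈ Z j) :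
    ∃ x ∈ PP c, x.f 1 ≤ R ∧ ∀ j, x ∈ Z j := by
  obtain ⟨x, hx⟩ := IsCompact.nonempty_iInter_of_directed_nonempty_isCompact_isClosed
    (fun j => {x | x ∈ PP c ∧ nn c x ≤ R} ∩ Z j)
    (fun s t => ⟨s ⊔ t, fun x hx => ⟨hx.1, h1 le_sup_left hx.2⟩,
      fun x hx => ⟨hx.1, h1 le_sup_right hx.2⟩⟩)
    (fun j => by
      obtain ⟨x, h4, h5, h6⟩ := h3 j
      exact ⟨x, ⟨h4, h5⟩, h6⟩)
    (fun j => (PPcp R).inter_right (h2 j)) fun j => (PPcp R).isClosed.inter (h2 j)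
  rw [mem_iInter] at hx
  have := hx (Classical.arbitrary _)
  exact ⟨x, this.1.1, this.1.2, fun j => (hx j).2⟩

lemma fam {e : MM c} (he : e ∈ UU c) (e0 : e ≠ 0) (ee : e * e = e)
    (h3 : ∀ a ∈ PP c, ∃ t : ℝ, e * a * e = t • e) {ι : Type u} (hι : #ι ≤ #G) :
    ∃ (A : ι → Set G) (w : ι → MM c), (Pairwise fun i j => Disjoint (A i) (A j)) ∧ ∀ i,
      w i ∈ PP c ∧ (w i).f 1 ≤ e.f 1 * e.f 1 ∧ w i * e = e ∧ e * w i = w i ∧
      ∀ s, (w i).f (ind ((s * ·) ⁻¹' (A i)ᶜ)) = 0 := by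
  classical
  have hψ : act e (act e 1) = act e 1 := by rw [← act_mul, ee]
  have hr : 0 < e.f 1 := (hyp c).pos he.1 e0
  obtain ⟨B, hB, hd⟩ := disj (G := G) (ι := ι × Finset G × ℕ) (by
      simp only [mk_prod, lift_id, lift_uzero, mk_finset_of_infinite, mk_nat, lift_aleph0]
      exact mul_le_of_le (aleph0_le_mk G) hι (mul_le_of_le (aleph0_le_mk G) le_rfl (aleph0_le_mk G)))
    (fun j B => ∃ y ∈ PP c, y.f 1 ≤ e.f 1 ∧ ∀ s ∈ j.2.1,
      |y.f (T c s (act e 1)) - act e 1 s| ≤ 1 / ((j.2.2 : ℝ) + 1) ∧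
        y.f (ind ((s * ·) ⁻¹' (B : Set G)ᶜ)) = 0) fun ⟨i, F, n⟩ D hD => by
      have h1 : #(range fun p : F × D => p.1.1⁻¹ * p.2.1) < #G := mk_range_le.trans_lt (by
        simp only [mk_prod, lift_id]
        exact mul_lt_of_lt (aleph0_le_mk G) (fin_lt F.finite_toSet) hD)
      obtain ⟨y, h2, h4, S, h5, h6⟩ := mem_closure_iff.1 (approx he h1)
        (⋂ s ∈ F, {y | |y.f (T c s (act e 1)) - act e 1 s| < 1 / ((n : ℝ) + 1)})
        (isOpen_biInter_finset fun s _ =>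
          isOpen_lt ((cev _).sub continuous_const).abs continuous_const) (by
          simp only [mem_iInter, mem_ofPred_eq]
          intro s _
          rw [← act_apply, hψ, sub_self, abs_zero]
          positivity)
      simp only [mem_iInter, mem_ofPred_eq] at h2
      refine ⟨Finset.image₂ (· * ·) F S, ⟨y, h4.1, h4.2, fun s hs => ⟨(h2 s hs).le,
        kill h4.1 h6 fun t ht => ind0 fun h => h ?_⟩⟩, disjoint_left.2 fun x hx hx' => ?_⟩
      · exact Finset.mem_image₂_of_mem hs (by simpa using ht)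
      · obtain ⟨s, hs, t, ht, rfl⟩ := Finset.mem_image₂.1 hx
        exact disjoint_left.1 h5 ht ⟨(⟨s, hs⟩, ⟨_, hx'⟩), by simp⟩
  have key : ∀ i, ∃ x ∈ PP c, x.f 1 ≤ e.f 1 ∧ act x (act e 1) = act e 1 ∧
      ∀ s, x.f (ind ((s * ·) ⁻¹' (⋃ j, (B (i, j) : Set G))ᶜ)) = 0 := fun i => by
    obtain ⟨x, h1, h2, h4⟩ := clus (c := c) (J := Finset G × ℕ) (e.f 1) (fun j => ⋂ s ∈ j.1, {y |
      |y.f (T c s (act e 1)) - act e 1 s| ≤ 1 / ((j.2 : ℝ) + 1) ∧
        y.f (ind ((s * ·) ⁻¹' (⋃ j, (B (i, j) : Set G))ᶜ)) = 0})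
      (fun j k hjk y hy => by
        simp only [mem_iInter, mem_ofPred_eq] at hy ⊢
        exact fun s hs => ⟨(hy s (hjk.1 hs)).1.trans (Nat.one_div_le_one_div hjk.2),
          (hy s (hjk.1 hs)).2⟩)
      (fun j => isClosed_biInter fun s _ => (isClosed_le ((cev _).sub continuous_const).abs
        continuous_const).inter (isClosed_eq (cev _) continuous_const))
      fun j => by
        obtain ⟨y, h1, h2, h4⟩ := hB (i, j)
        refine ⟨y, h1, h2, ?_⟩
        simp only [mem_iInter, mem_ofPred_eq]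
        exact fun s hs => ⟨(h4 s hs).1, kill h1 (h4 s hs).2 fun t ht => ind0 fun h =>
          h (mem_iUnion.2 ⟨j, by simpa using ht⟩)⟩
    simp only [mem_iInter, mem_ofPred_eq] at h4
    refine ⟨x, h1, h2, ?_, fun s => (h4 ({s}, 0) s (by simp)).2⟩
    ext s
    exact sub_eq_zero.1 (abs_nonpos_iff.1 (ge_of_tendsto' tendsto_one_div_add_atTop_nhds_zero_nat
      fun n => (h4 ({s}, n) s (by simp)).1))
  choose x h1 h2 h4 h5 using key
  refine ⟨fun i => ⋃ j, (B (i, j) : Set G), fun i => e * x i, fun i j hij => ?_, fun i =>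
    ⟨(hyp c).mul e he.1 _ (h1 i), ((hyp c).nm e he.1 _ (h1 i)).trans
      (mul_le_mul_of_nonneg_left (h2 i) hr.le), ?_, by rw [← mul_assoc, ee], fun s => ?_⟩⟩
  · exact disjoint_iUnion_left.2 fun a => disjoint_iUnion_right.2 fun b =>
      hd fun h => hij (congrArg Prod.fst h)
  · obtain ⟨t, ht⟩ := h3 _ (h1 i)
    have h6 : (e * x i * e).f 1 = e.f 1 := by rw [mul_f, mul_f, h4, ← mul_f, ee]
    rw [ht] at h6 ⊢
    have : t = 1 := mul_right_cancel₀ hr.ne' (h6.trans (one_mul _).symm)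
    rw [this, one_smul]
  · have : act (x i) (ind ((s * ·) ⁻¹' (⋃ j, (B (i, j) : Set G))ᶜ)) = 0 := by
      ext s'
      exact kill (h1 i) (h5 i (s * s')) fun t ht => by
        rw [T_apply, ind0, mul_zero]
        simpa only [mem_preimage, mul_assoc] using ht
    rw [mul_f, this, map_zero]

noncomputable def res (w : MM c) (C : Set G) : MM c :=
  mk c (w.f ∘L ContinuousLinearMap.mul ℝ (G →ᵇ ℝ) (ind C))

lemma res_f (w : MM c) (C : Set G) (β : G →ᵇ ℝ) : (res w C).f β = w.f (ind C * β) := rfl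

lemma res_mem {w : MM c} (h : w ∈ PP c) (C : Set G) : res w C ∈ PP c :=
  fun _ hβ => h _ fun x => mul_nonneg (ind_nn C x) (hβ x)

lemma res_add (w : MM c) (C : Set G) : res w C + res w Cᶜ = w := MM.ext' fun β => by
  change w.f _ + w.f _ = _
  rw [← map_add]
  congr 1
  ext x
  by_cases h : x ∈ C
  · simp [ind1 h, ind0 (D := Cᶜ) (not_not.2 h)]
  · simp [ind0 h, ind1 (D := Cᶜ) h]

lemma sepr {w : MM c} (hw : w ∈ PP c) {ψ : G →ᵇ ℝ} (hψ : ∀ x, 0 ≤ ψ x) {r : ℝ}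
    (h0 : 0 < w.f ψ) (h1 : w.f 1 ≤ r * w.f ψ) (E : Finset G) (hE : 1 ∉ E) :
    ∃ C : Set G, (∀ g ∈ E, ∀ x ∈ C, g * x ∉ C) ∧ 0 < (res w C).f ψ ∧
      (res w C).f 1 ≤ r * (res w C).f ψ := by
  classical
  induction E using Finset.induction_on with
  | empty =>
    have : ind (univ : Set G) = 1 := by ext x; simp [ind1]
    exact ⟨univ, by simp, by simpa [res_f, this] using h0, by simpa [res_f, this] using h1⟩
  | insert g E _ ih =>
    obtain ⟨C, h2, h3, h4⟩ := ih fun h => hE (Finset.mem_insert_of_mem h)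
    obtain ⟨k, hk⟩ := three (g := g) fun h => hE (h ▸ Finset.mem_insert_self _ _)
    have hs : ∀ β, (res w C).f β = ∑ j, (res w (C ∩ k ⁻¹' {j})).f β := fun β => by
      simp only [res_f, ← map_sum, ← Finset.sum_mul]
      congr 2
      ext x
      rw [BoundedContinuousFunction.sum_apply, Finset.sum_eq_single (k x)
        (fun j _ hj => ind0 fun h => hj (Eq.symm h.2)) (by simp)]
      by_cases h : x ∈ C
      · rw [ind1 h, ind1 (D := C ∩ k ⁻¹' {k x}) ⟨h, rfl⟩]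
      · rw [ind0 h, ind0 (D := C ∩ _) fun h' => h h'.1]
    have : ∃ j, 0 < (res w (C ∩ k ⁻¹' {j})).f ψ ∧
        (res w (C ∩ k ⁻¹' {j})).f 1 ≤ r * (res w (C ∩ k ⁻¹' {j})).f ψ := by
      by_contra hn
      push Not at hn
      rw [hs] at h3
      rw [hs, hs, Finset.mul_sum] at h4
      obtain ⟨j, -, hj⟩ := Finset.exists_lt_of_sum_lt (f := fun _ => (0 : ℝ)) (by simpa using h3)
      refine h4.not_gt (Finset.sum_lt_sum (fun i _ => ?_) ⟨j, by simp, hn j hj⟩)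
      rcases (res_mem hw (C ∩ k ⁻¹' {i}) ψ hψ).eq_or_lt with h5 | h5
      · rw [← h5, mul_zero]
        exact (hyp c).n0 _ (res_mem hw _)
      · exact (hn i h5).le
    obtain ⟨j, hj⟩ := this
    refine ⟨_, fun g' hg' x hx hx' => ?_, hj⟩
    rcases Finset.mem_insert.1 hg' with rfl | hg'
    · exact hk x (hx'.2.trans hx.2.symm)
    · exact h2 g' hg' x hx.1 hx'.1

lemma piece {e w : MM c} (he : e ∈ PP c) (hr : 0 < e.f 1)
    (h3 : ∀ a ∈ PP c, ∃ t : ℝ, e * a * e = t • e)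
    (h4 : ∀ a ∈ PP c, ∀ b ∈ PP c, ∀ t : ℝ, a * e + b * e = t • e → ∃ t : ℝ, a * e = t • e)
    (h5 : w ∈ PP c) (h6 : w.f 1 ≤ e.f 1 * e.f 1) (h7 : w * e = e) (h8 : e * w = w) (F : Finset G) :
    ∃ C : Set G, (∀ s ∈ F, ∀ s' ∈ F, ∀ x ∈ C, s'⁻¹ * s * x ∈ C → s = s') ∧
      ∃ y ∈ PP c, y.f 1 ≤ e.f 1 * e.f 1 ∧ y.f (act e 1) = e.f 1 ∧
        (∀ a ∈ PP c, ∃ t : ℝ, y * a * e = t • e) ∧
        ∀ β, w.f (ind C * β) = 0 → y.f β = 0 := by
  classical
  have hψ : ∀ x, 0 ≤ act e 1 x := act_pos he fun _ => zero_le_one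
  have h9 : w.f (act e 1) = e.f 1 := by rw [← mul_f, h7]
  obtain ⟨C, hC, h10, h11⟩ := sepr h5 hψ (r := e.f 1) (by rwa [h9]) (by rwa [h9])
    ((Finset.image₂ (fun s s' => s'⁻¹ * s) F F).erase 1) (by simp)
  have h12 := div_pos hr h10
  refine ⟨C, fun s hs s' hs' x hx hx' => ?_, (e.f 1 / (res w C).f (act e 1)) •
    res w C, (hyp c).smP h12.le (res_mem h5 C), ?_, div_mul_cancel₀ _ h10.ne',
    fun a ha => ?_, fun β hβ => ?_⟩
  · by_contra hn
    exact hC _ (Finset.mem_erase.2 ⟨fun h => hn (inv_mul_eq_one.1 h).symm,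
      Finset.mem_image₂_of_mem hs hs'⟩) x hx hx'
  · change e.f 1 / (res w C).f (act e 1) * (res w C).f 1 ≤ _
    rw [div_mul_eq_mul_div, div_le_iff₀ h10, mul_assoc]
    exact mul_le_mul_of_nonneg_left h11 hr.le
  · obtain ⟨t, ht⟩ := h3 _ ((hyp c).mul _ h5 a ha)
    obtain ⟨t', ht'⟩ := h4 _ ((hyp c).mul _ (res_mem h5 C) a ha) _
      ((hyp c).mul _ (res_mem h5 Cᶜ) a ha) t (by
        rw [← add_mul, ← add_mul, res_add, ← ht, ← mul_assoc, h8])
    exact ⟨_, by rw [smul_mul_assoc, smul_mul_assoc, ht', smul_smul]⟩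
  · change e.f 1 / (res w C).f (act e 1) * w.f (ind C * β) = 0
    rw [hβ, mul_zero]

lemma free {e : MM c} (he : e ∈ PP c) (hr : 0 < e.f 1)
    (h3 : ∀ a ∈ PP c, ∃ t : ℝ, e * a * e = t • e)
    (h4 : ∀ a ∈ PP c, ∀ b ∈ PP c, ∀ t : ℝ, a * e + b * e = t • e → ∃ t : ℝ, a * e = t • e)
    {A : Finset G → Set G} {w : Finset G → MM c} (hd : Pairwise fun i j => Disjoint (A i) (A j))
    (hw : ∀ i, w i ∈ PP c ∧ (w i).f 1 ≤ e.f 1 * e.f 1 ∧ w i * e = e ∧ e * w i = w i ∧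
      ∀ s, (w i).f (ind ((s * ·) ⁻¹' (A i)ᶜ)) = 0) (B : Set G) :
    ∃ z ∈ PP c, (∀ a ∈ PP c, ∃ t : ℝ, z * a * e = t • e) ∧ z * e = e ∧
      ∃ β, act z β = ind B * act z 1 := by
  classical
  choose C hC y y1 y2 y3 y4 y5 using fun F =>
    piece he hr h3 h4 (hw F).1 (hw F).2.1 (hw F).2.2.1 (hw F).2.2.2.1 F
  obtain ⟨B', hB'⟩ : ∃ B' : Set G, ∀ x, x ∈ B' ↔ ∃ F, x ∈ A F ∧ ∃ s ∈ F, s ∈ B ∧ s⁻¹ * x ∈ C F :=
    ⟨{x | _}, fun _ => Iff.rfl⟩
  have y6 : ∀ F, ∀ s ∈ F, (y F).f (T c s (ind B')) = ind B s * (y F).f (T c s 1) := fun F s hs => by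
    have := y5 F (T c s (ind B') - ind B s • T c s 1) (kill (hw _).1 ((hw _).2.2.2.2 s)
      fun t ht => by
        have ht : s * t ∈ A F := not_not.1 ht
        by_cases h : t ∈ C F
        · by_cases h' : s ∈ B
          · simp [ind1 h', ind1 ((hB' _).2 ⟨F, ht, s, hs, h', by simpa using h⟩)]
          · have : s * t ∉ B' := fun h5 => by
              obtain ⟨F', h6, s', h7, h8, h9⟩ := (hB' _).1 h5
              obtain rfl : F' = F := by
                by_contra hn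
                exact disjoint_left.1 (hd hn) h6 ht
              exact h' (hC _ s hs s' h7 t h (by rwa [mul_assoc]) ▸ h8)
            simp [ind0 h', ind0 this]
        · simp [ind0 h])
    rw [map_sub, map_smul] at this
    exact sub_eq_zero.1 this
  have hc : ∀ a : MM c, Continuous fun z => z * a * e := fun a =>
    ((hyp c).cR e).comp ((hyp c).cR a)
  have c1 : IsClosed {z : MM c | z.f (act e 1) = e.f 1} := isClosed_eq (cev _) continuous_const
  have c2 : IsClosed {z : MM c | ∀ a ∈ PP c, e.f 1 • (z * a * e) = (z * a * e).f 1 • e} := by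
    simp only [ofPred_forall]
    exact isClosed_iInter fun a => isClosed_iInter fun _ =>
      isClosed_eq ((hc a).const_smul (e.f 1)) (((cev 1).comp (hc a)).smul continuous_const)
  have c3 : ∀ F : Finset G, IsClosed {z : MM c |
      ∀ s ∈ F, z.f (T c s (ind B')) = ind B s * z.f (T c s 1)} := fun F => by
    simp only [ofPred_forall]
    exact isClosed_iInter fun a => isClosed_iInter fun _ =>
      isClosed_eq (cev _) (continuous_const.mul (cev _))
  have y7 : ∀ F, ∀ a ∈ PP c, e.f 1 • (y F * a * e) = (y F * a * e).f 1 • e := fun F a ha => by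
    obtain ⟨t, ht⟩ := y4 F a ha
    rw [ht, smul_smul, mul_comm]; rfl
  obtain ⟨z, z1, -, z2⟩ := clus (c := c) (J := Finset G) (e.f 1 * e.f 1) (fun F =>
    {z | z.f (act e 1) = e.f 1 ∧ (∀ a ∈ PP c, e.f 1 • (z * a * e) = (z * a * e).f 1 • e) ∧
      ∀ s ∈ F, z.f (T c s (ind B')) = ind B s * z.f (T c s 1)})
    (fun F F' h z hz => ⟨hz.1, hz.2.1, fun s hs => hz.2.2 s (Finset.mem_of_subset h hs)⟩)
    (fun F => c1.inter (c2.inter (c3 F))) fun F => ⟨y F, y1 F, y2 F, y3 F, y7 F, y6 F⟩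
  simp only [mem_ofPred_eq] at z2
  refine ⟨z, z1, fun a ha => ?_, ?_, ind B', ?_⟩
  · exact ⟨(e.f 1)⁻¹ * (z * a * e).f 1, by
      rw [mul_smul, ← (z2 ∅).2.1 a ha, smul_smul, inv_mul_cancel₀ hr.ne', one_smul]⟩
  · have h5 := (z2 ∅).2.1 1 (dl_mem 1)
    rw [mul_one, mul_f, (z2 ∅).1] at h5
    exact smul_right_injective _ hr.ne' h5
  · ext s
    exact (z2 {s}).2.2 s (by simp)

theorem core (c : Coc G) : ∃ X : MM c, X ≠ 0 ∧ ∀ a, X * a * X = 0 := by
  rcases stepA (hyp c) (goodU c) U_right with h | ⟨e, he, e0, ee, h3, h4⟩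
  · exact h
  obtain ⟨A, w, hd, hw⟩ := fam he e0 ee h3 (ι := Finset G ⊕ Bool) (by
    simp only [mk_sum, lift_uzero, mk_finset_of_infinite]
    exact add_le_of_le (aleph0_le_mk G) le_rfl (le_trans (by simp) (aleph0_le_mk G)))
  obtain ⟨z, z1, z3, z4, β, z5⟩ := free he.1 ((hyp c).pos he.1 e0) h3 h4
    (fun i j h => hd (by simpa using h)) (fun F => hw (.inl F)) (A (.inr true))
  obtain ⟨a1, -, a2, a3, a4⟩ := hw (.inr true)
  obtain ⟨b1, -, b2, b3, b4⟩ := hw (.inr false)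
  have hd' : Disjoint (A (.inr false)) (A (.inr true)) := hd (by simp)
  generalize w (.inr true) = p at *
  generalize w (.inr false) = q at *
  generalize A (.inr true) = B at *
  refine ⟨(p - q) * z, fun h0 => ?_, fun a => ?_⟩
  · have h5 : p.f (ind B * act z 1) - q.f (ind B * act z 1) = 0 := by
      rw [← z5]; exact congrArg (fun X : MM c => X.f β) h0
    have h6 := kill b1 (b4 1) (β := ind B * act z 1) fun t ht => by
      have : t ∉ B := disjoint_left.1 hd' (by simpa using ht)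
      simp [ind0 this]
    have h7 := kill a1 (a4 1) (β := act z 1 - ind B * act z 1) fun t ht => by
      have : t ∈ B := by simpa using ht
      simp [ind1 this]
    rw [map_sub] at h7
    have h8 := (hyp c).n1 _ ((hyp c).mul _ a1 z z1) (by
      change p.f (act z 1) ≤ 0
      linarith)
    exact e0 (by rw [← a2, ← z4, ← mul_assoc, h8, zero_mul])
  have h5 : ∀ a ∈ PP c, (p - q) * z * a * e = 0 := fun a ha => by
    obtain ⟨t, ht⟩ := z3 a ha
    rw [mul_assoc, mul_assoc, ← mul_assoc z, ht, mul_smul_comm, sub_mul, a2, b2, sub_self, smul_zero]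
  obtain ⟨x, hx, y, hy, rfl⟩ := (hyp c).sp a
  have h6 : e * ((p - q) * z) = (p - q) * z := by rw [← mul_assoc, mul_sub, a3, b3]
  calc _ = (p - q) * z * (x - y) * (e * ((p - q) * z)) := by rw [h6]
    _ = 0 := by rw [← mul_assoc, mul_sub _ x, sub_mul _ _ e, h5 x hx, h5 y hy, sub_zero, zero_mul]

end Pool.Agent.H.MP_cecf91_an
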