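import Pool.Agent.H.MP_cecf91_an.D

set_option autoImplicit false
set_option linter.unusedSectionVars false

namespace Pool.Agent.H.MP_cecf91_an
open Set BoundedContinuousFunction Filter Topology

variable {A : Type*} [NormedAddCommGroup A] [NormedSpace ℂ A]

def Ar (m : A →L[ℂ] A →L[ℂ] A) (p : StrongDual ℂ (StrongDual ℂ A) →
    StrongDual ℂ (StrongDual ℂ A) → StrongDual ℂ (StrongDual ℂ A)) : Prop :=
  ∀ Φ Ψ φ, ∃ η : StrongDual ℂ A, (∀ a, η a = Ψ (φ ∘L m a)) ∧ p Φ Ψ φ = Φ η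

def Concl (p : StrongDual ℂ (StrongDual ℂ A) →
    StrongDual ℂ (StrongDual ℂ A) → StrongDual ℂ (StrongDual ℂ A)) : Prop :=
  ∃ X, X ≠ 0 ∧ (∀ Φ, p (p X Φ) X = 0) ∧ ∀ Φ, ∃ Ψ, Ψ + p Φ X = p Ψ (p Φ X)

lemma exAr (m : A →L[ℂ] A →L[ℂ] A) : ∃ p, Ar m p :=
  ⟨fun Φ Ψ => Φ ∘L (ContinuousLinearMap.compL ℂ A (StrongDual ℂ A) ℂ Ψ ∘L
    (ContinuousLinearMap.compL ℂ A (A →L[ℂ] A) (StrongDual ℂ A)).flip m ∘L
      ContinuousLinearMap.compL ℂ A A ℂ), fun _ _ _ => ⟨_, fun _ => rfl, rfl⟩⟩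

theorem disc {G : Type*} [Group G] [TopologicalSpace G] [DiscreteTopology G] [Infinite G]
    (c : Coc G) (m : A →L[ℂ] A →L[ℂ] A) (d : G → A) (h1 : ∀ s, ‖d s‖ ≤ 1)
    (h2 : ∀ φ : StrongDual ℂ A, (∀ s, φ (d s) = 0) → φ = 0)
    (h3 : ∀ β : G →ᵇ ℝ, ∃ φ : StrongDual ℂ A, ‖φ‖ ≤ ‖β‖ ∧ ∀ s, φ (d s) = β s)
    (h4 : ∀ s t, m (d s) (d t) = (c.w s t : ℂ) • d (s * t)) {p} (hp : Ar m p) : Concl p := by
  have inj : ∀ φ ψ : StrongDual ℂ A, (∀ s, φ (d s) = ψ (d s)) → φ = ψ := fun φ ψ h =>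
    sub_eq_zero.1 (h2 _ fun s => by simp [h s])
  have rs : ∀ (t : ℝ) (φ : StrongDual ℂ A), t • φ = (t : ℂ) • φ := fun _ _ => by
    ext; simp
  choose I0 i1 i2 using h3
  obtain ⟨I, hI⟩ : ∃ I : (G →ᵇ ℝ) →L[ℝ] StrongDual ℂ A, ∀ β s, I β (d s) = β s :=
    ⟨LinearMap.mkContinuous
      { toFun := I0
        map_add' := fun β γ => inj _ _ fun s => by simp [i2]
        map_smul' := fun t β => inj _ _ fun s => by simp [i2, rs] } 1 (by simpa using i1), i2⟩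
  have j1 : ∀ (φ : StrongDual ℂ A) s, ‖(φ (d s)).re‖ ≤ ‖φ‖ := fun φ s =>
    (Complex.abs_re_le_norm _).trans ((φ.le_opNorm _).trans
      (mul_le_of_le_one_right (norm_nonneg _) (h1 s)))
  obtain ⟨J, hJ⟩ : ∃ J : StrongDual ℂ A →L[ℝ] (G →ᵇ ℝ), ∀ φ s, J φ s = (φ (d s)).re :=
    ⟨LinearMap.mkContinuous
      { toFun := fun φ => ofNormedAddCommGroupDiscrete _ _ (j1 φ)
        map_add' := fun β γ => by ext s; simp
        map_smul' := fun t β => by ext s; simp [rs] } 1 fun φ => by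
      rw [one_mul]; exact (norm_le (norm_nonneg _)).2 (j1 φ), fun _ _ => rfl⟩
  obtain ⟨R, hR⟩ : ∃ R : StrongDual ℂ (StrongDual ℂ A) → MM c, ∀ Φ β, (R Φ).f β = (Φ (I β)).re :=
    ⟨fun Φ => mk c (Complex.reCLM ∘L Φ.restrictScalars ℝ ∘L I), fun _ _ => rfl⟩
  obtain ⟨S, hS⟩ : ∃ R : StrongDual ℂ (StrongDual ℂ A) → MM c, ∀ Φ β, (R Φ).f β = (Φ (I β)).im :=
    ⟨fun Φ => mk c (Complex.imCLM ∘L Φ.restrictScalars ℝ ∘L I), fun _ _ => rfl⟩
  have z : ∀ Φ, R Φ = 0 → S Φ = 0 → Φ = 0 := fun Φ r s => by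
    have h5 : ∀ β, Φ (I β) = 0 := fun β => Complex.ext (by rw [← hR, r]; rfl) (by rw [← hS, s]; rfl)
    ext φ
    have : φ = I (J φ) - Complex.I • I (J (Complex.I • φ)) := inj _ _ fun s => by
      apply Complex.ext <;> simp [hI, hJ]
    rw [this, map_sub, map_smul, h5, h5]; simp
  have mul : ∀ Φ Ψ, R (p Φ Ψ) = R Φ * R Ψ - S Φ * S Ψ ∧ S (p Φ Ψ) = R Φ * S Ψ + S Φ * R Ψ := by
    intro Φ Ψ
    have : ∀ β, p Φ Ψ (I β) = Φ (I (act (R Ψ) β)) + Complex.I * Φ (I (act (S Ψ) β)) := fun β => by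
      obtain ⟨η, h5, h6⟩ := hp Φ Ψ (I β)
      have : η = I (act (R Ψ) β) + Complex.I • I (act (S Ψ) β) := inj _ _ fun s => by
        have : I β ∘L m (d s) = I (T c s β) := inj _ _ fun t => by simp [h4, hI]
        rw [h5, this]
        apply Complex.ext <;> simp [hI, hR, hS]
      rw [h6, this, map_add, map_smul, smul_eq_mul]
    constructor <;> refine MM.ext' fun β => ?_
    · simp [hR, hS, this, mul_f]; ring
    · simp [hR, hS, this, mul_f, add_comm]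
  obtain ⟨X, X0, hX⟩ := core c
  obtain ⟨Y, r, s⟩ : ∃ Y, R Y = X ∧ S Y = 0 := by
    refine ⟨StrongDual.extendRCLike (X.f ∘L J), MM.ext' fun β => ?_, MM.ext' fun β => ?_⟩
    · have : J (I β) = β := by ext s; simp [hI, hJ]
      rw [hR]
      exact (StrongDual.re_extendRCLike_apply (𝕜 := ℂ) _ _).trans (by simp [this])
    · have : J (Complex.I • I β) = 0 := by ext s; simp [hI, hJ]
      rw [hS]
      exact (StrongDual.im_extendRCLike_apply (𝕜 := ℂ) _ _).trans (by simp [this])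
  have nR : ∀ Φ, R (-Φ) = -R Φ := fun Φ => MM.ext' fun β => by
    change _ = -(R Φ).f β
    simp [hR]
  have nS : ∀ Φ, S (-Φ) = -S Φ := fun Φ => MM.ext' fun β => by
    change _ = -(S Φ).f β
    simp [hS]
  have hX' : ∀ a b, a * X * (b * X) = 0 := fun a b => by
    rw [mul_assoc, ← mul_assoc X, hX, mul_zero]
  refine ⟨Y, fun h => X0 (MM.ext' fun β => by rw [← r, h, hR]; rfl), fun Φ => z _ ?_ ?_,
    fun Φ => ⟨-p Φ Y, ?_⟩⟩
  · simp [mul, r, s, hX]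
  · simp [mul, r, s, hX]
  · have : -p Φ Y + p Φ Y = 0 := by ext; simp
    rw [this]
    refine (z _ ?_ ?_).symm <;> simp [mul, r, s, nR, nS, hX']

theorem ndisc (m : A →L[ℂ] A →L[ℂ] A) (φ : StrongDual ℂ A) {C k : ℝ} (hk : 0 < k)
    (h : ∀ (F : Finset A) (ε : ℝ), 0 < ε → ∃ b, ‖b‖ ≤ C ∧ k ≤ (φ b).re ∧ ∀ a ∈ F, ‖m a b‖ ≤ ε)
    {p} (hp : Ar m p) : Concl p := by
  classical
  have hc := WeakDual.isCompact_closedBall (𝕜 := ℂ) (E := StrongDual ℂ A) 0 C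
  have h1 : ∀ j : Finset A × ℕ, IsClosed {Φ : WeakDual ℂ (StrongDual ℂ A) | k ≤ (Φ φ).re ∧
      ∀ a ∈ j.1, ∀ ψ : StrongDual ℂ A, ‖Φ (ψ ∘L m a)‖ ≤ ‖ψ‖ * (1 / ((j.2 : ℝ) + 1))} := fun j => by
    simp only [ofPred_and, ofPred_forall]
    exact (isClosed_le continuous_const (Complex.continuous_re.comp (WeakDual.eval_continuous _))).inter
      (isClosed_iInter fun _ => isClosed_iInter fun _ => isClosed_iInter fun _ =>
        isClosed_le (WeakDual.eval_continuous _).norm continuous_const)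
  obtain ⟨X, hX⟩ := IsCompact.nonempty_iInter_of_directed_nonempty_isCompact_isClosed
    (fun j : Finset A × ℕ => _ ∩ {Φ : WeakDual ℂ (StrongDual ℂ A) | k ≤ (Φ φ).re ∧
      ∀ a ∈ j.1, ∀ ψ : StrongDual ℂ A, ‖Φ (ψ ∘L m a)‖ ≤ ‖ψ‖ * (1 / ((j.2 : ℝ) + 1))})
    (Antitone.directed_ge fun i j (hij : i.1 ≤ j.1 ∧ i.2 ≤ j.2) x hx => ⟨hx.1, hx.2.1, fun a ha ψ =>
      (hx.2.2 a (Finset.mem_of_subset hij.1 ha) ψ).trans (mul_le_mul_of_nonneg_left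
        (Nat.one_div_le_one_div hij.2) (norm_nonneg _))⟩)
    (fun j => by
      obtain ⟨b, h2, h3, h4⟩ := h j.1 _ (Nat.one_div_pos_of_nat (n := j.2))
      exact ⟨NormedSpace.inclusionInDoubleDual ℂ A b, mem_closedBall_zero_iff.2
        ((NormedSpace.double_dual_bound ℂ A b).trans h2), h3, fun a ha ψ =>
        (ψ.le_opNorm _).trans (mul_le_mul_of_nonneg_left (h4 a ha) (norm_nonneg _))⟩)
    (fun j => hc.inter_right (h1 j)) fun j => hc.isClosed.inter (h1 j)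
  rw [mem_iInter] at hX
  have h2 : ∀ Φ, p Φ X = 0 := fun Φ => by
    ext ψ
    obtain ⟨η, h3, h4⟩ := hp Φ X ψ
    have : η = 0 := by
      ext a
      have := tendsto_one_div_add_atTop_nhds_zero_nat.const_mul ‖ψ‖
      rw [mul_zero] at this
      exact (h3 a).trans (norm_le_zero_iff.1 (ge_of_tendsto' this fun n =>
        (hX ({a}, n)).2.2 a (by simp) ψ))
    rw [h4, this, map_zero]; rfl
  refine ⟨X, fun h0 => ?_, fun Φ => h2 _, fun Φ => ⟨0, ?_⟩⟩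
  · have := (hX (∅, 0)).2.1
    rw [h0] at this
    exact this.not_gt hk
  · ext ψ
    obtain ⟨η, -, h4⟩ := hp 0 (p Φ X) ψ
    rw [h4, h2]; simp

end Pool.Agent.H.MP_cecf91_an
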