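import Pool.Agent.H.MP_cecf91_an.E

set_option autoImplicit false
set_option linter.unusedSectionVars false

namespace Pool.Agent.H.MP_cecf91_an
open Set BoundedContinuousFunction Filter Topology MeasureTheory

variable {G : Type*} [Group G] [TopologicalSpace G] [IsTopologicalGroup G] [LocallyCompactSpace G]
  [T2Space G] [MeasurableSpace G] [BorelSpace G] (μ : Measure G) [μ.IsHaarMeasure] [μ.Regular]

lemma nwd (h : ¬ DiscreteTopology G) : ∃ K : Set G, IsCompact K ∧ interior K = ∅ ∧ μ K ≠ 0 := by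
  have : (𝓝[≠] (1 : G)).NeBot := ⟨fun h0 => h (discreteTopology_of_isOpen_singleton_one
    ((isOpen_singleton_iff_punctured_nhds _).2 h0))⟩
  obtain ⟨K, hK, hK1⟩ := exists_compact_mem_nhds (1 : G)
  obtain ⟨δ, -, δ0, δ1⟩ := exists_seq_strictAnti_tendsto' (ENNReal.zero_lt_top)
  have h1 : ∀ k : ℕ, ∃ O : Set G, IsOpen O ∧ μ O < δ k ∧
      ∃ D, IsCompact D ∧ D ∈ 𝓝 (1 : G) ∧ D ⊆ O := fun k => by
    obtain ⟨O, h2, h3, h4⟩ := ({1} : Set G).exists_isOpen_lt_of_lt (μ := μ) (δ k)
      (by simpa using (δ0 k).1)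
    obtain ⟨D, h5, h6, h7⟩ := local_compact_nhds (h3.mem_nhds (h2 rfl))
    exact ⟨O, h3, h4, D, h7, h5, h6⟩
  choose O o1 o2 D d1 d2 d3 using h1
  let C : ℕ → Set G := fun n => ⋂ k ∈ Finset.range (n + 1), D k ∩ (D k)⁻¹
  have c1 : ∀ n, IsClosed (C n) := fun n =>
    isClosed_biInter fun k _ => (d1 k).isClosed.inter (d1 k).inv.isClosed
  have c2 : ∀ n, C n ⊆ D n := fun n x hx => (mem_iInter₂.1 hx n (by simp)).1
  have c3 : ∀ n, C n ∈ 𝓝 (1 : G) := fun n => (biInter_finset_mem _).2 fun k _ =>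
    inter_mem (d2 k) (inv_mem_nhds_one G (d2 k))
  have c4 : ∀ n, ∀ x ∈ C n, x⁻¹ ∈ C n := fun n x hx => mem_iInter₂.2 fun k hk =>
    ⟨(mem_iInter₂.1 hx k hk).2, by simpa using (mem_iInter₂.1 hx k hk).1⟩
  have c5 : Antitone C := fun n n' hn => biInter_subset_biInter_left
    (Finset.range_mono (Nat.succ_le_succ hn))
  choose X x1 x2 using fun n => hK.elim_nhds_subcover (fun x => (x⁻¹ * ·) ⁻¹' C n) fun x _ =>
    (continuous_const.mul continuous_id).continuousAt.preimage_mem_nhds (by simpa using c3 n)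
  have : Countable (⋃ n, (X n : Set G)) :=
    (countable_iUnion fun n => (X n).countable_toSet).to_subtype
  obtain ⟨ε, ε0, ε1⟩ := ENNReal.exists_pos_sum_of_countable'
    (μ.measure_pos_of_mem_nhds hK1).ne' (⋃ n, (X n : Set G))
  choose j hj using fun x => (δ1.eventually (gt_mem_nhds (ε0 x))).exists
  let U : Set G := ⋃ x : (⋃ n, (X n : Set G)), (x.1⁻¹ * ·) ⁻¹' O (j x)
  have u1 : IsOpen U := isOpen_iUnion fun x => (o1 _).preimage (continuous_const.mul continuous_id)
  have u2 : μ U < μ K := ((measure_iUnion_le _).trans (ENNReal.tsum_le_tsum fun x => by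
    rw [measure_preimage_mul]; exact ((o2 _).trans (hj x)).le)).trans_lt ε1
  refine ⟨K \ U, hK.diff u1, eq_empty_of_forall_notMem fun y hy => ?_, fun h0 => u2.not_ge ?_⟩
  · obtain ⟨n, hn⟩ := exists_subset_nhds_of_isCompact' c5.directed_ge
      (fun n => (d1 n).of_isClosed_subset (c1 n) (c2 n)) c1
      (U := ⋃ v ∈ ⋂ n, C n, (fun g => y * g * v⁻¹) ⁻¹' interior (K \ U)) fun v hv =>
      mem_of_superset ((isOpen_interior.preimage (by fun_prop)).mem_nhds (by simpa using hy))
        (subset_biUnion_of_mem (u := fun v => (fun g => y * g * v⁻¹) ⁻¹' interior (K \ U)) hv)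
    obtain ⟨x, h2, h3⟩ := mem_iUnion₂.1 (x2 n (interior_subset hy).1)
    obtain ⟨v, h4, h5⟩ := mem_iUnion₂.1 (hn (c4 n _ h3))
    refine (interior_subset h5).2 (mem_iUnion.2 ⟨⟨x, mem_iUnion.2 ⟨n, h2⟩⟩, ?_⟩)
    simpa using d3 _ (c2 _ (c4 _ v (mem_iInter.1 h4 _)))
  · calc μ K ≤ μ (K \ U ∪ U) := measure_mono (by simp)
      _ ≤ _ := (measure_union_le _ _).trans (by rw [h0, zero_add])

lemma exE (h : ¬ DiscreteTopology G) : ∃ E : Set G, IsClosed E ∧ (∀ x ∈ E, x⁻¹ ∈ E) ∧
    ∀ V ∈ 𝓝 (1 : G), μ (V ∩ E) ≠ 0 ∧ μ (V \ E) ≠ 0 := by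
  obtain ⟨K, h1, h2, h3⟩ := nwd μ h
  obtain ⟨x, h4⟩ : ∃ x, ∀ V ∈ 𝓝 x, μ (V ∩ K) ≠ 0 := by
    by_contra hn
    push Not at hn
    choose V v1 v2 using hn
    obtain ⟨t, -, ht⟩ := h1.elim_nhds_subcover V fun x _ => v1 x
    refine h3 (measure_mono_null (t := ⋃ x ∈ t, V x ∩ K) (fun y hy => ?_)
      ((measure_biUnion_null_iff t.countable_toSet).2 fun x _ => v2 x))
    obtain ⟨x, h4, h5⟩ := mem_iUnion₂.1 (ht hy)
    exact mem_iUnion₂.2 ⟨x, h4, h5, hy⟩
  have h5 : IsClosed ((x * ·) ⁻¹' K) := h1.isClosed.preimage (by fun_prop)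
  have h6 : interior ((x * ·) ⁻¹' K) = ∅ := by
    have := (Homeomorph.mulLeft x).preimage_interior K
    rw [h2] at this
    exact this.symm
  have h7 : interior ((x * ·) ⁻¹' K)⁻¹ = ∅ := by
    have := (Homeomorph.inv G).preimage_interior ((x * ·) ⁻¹' K)
    rw [h6] at this
    exact this.symm
  refine ⟨(x * ·) ⁻¹' K ∪ ((x * ·) ⁻¹' K)⁻¹, h5.union h5.inv, fun y hy => hy.elim
    (fun h => Or.inr (by simpa using h)) fun h => Or.inl h, fun V hV => ⟨fun h0 => ?_, fun h0 => ?_⟩⟩
  · refine h4 ((x⁻¹ * ·) ⁻¹' V) ((continuous_const.mul continuous_id).continuousAt.preimage_mem_nhds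
      (by simpa using hV)) ?_
    rw [← measure_preimage_mul μ x]
    refine measure_mono_null ?_ h0
    exact fun y hy => ⟨by simpa using hy.1, Or.inl hy.2⟩
  · have := ((isOpen_interior.sdiff (h5.union h5.inv)).measure_eq_zero_iff μ).1
      (measure_mono_null (sdiff_subset_sdiff_left interior_subset) h0)
    have h8 := interior_maximal (sdiff_eq_empty.1 this) isOpen_interior
    rw [interior_union_isClosed_of_interior_empty h5 h7, h6] at h8
    exact h8 (mem_interior_iff_mem_nhds.2 hV)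

lemma densC {f : G → ℂ} (hf : Integrable f μ) {ε : ℝ} (hε : 0 < ε) : ∃ g : G → ℂ,
    HasCompactSupport g ∧ ∫ x, ‖f x - g x‖ ∂μ ≤ ε ∧ Continuous g := by
  have hs : ∀ {f g : G → ℂ}, HasCompactSupport f → HasCompactSupport g →
      HasCompactSupport (f + g) := fun h1 h2 => h1.add h2
  obtain ⟨g, h1, h2, h3⟩ := (memLp_one_iff_integrable.2 hf).induction_dense ENNReal.one_ne_top
    (fun g => Continuous g ∧ HasCompactSupport g) (fun c t ht htμ ε hε => by
      obtain ⟨η, η0, hη⟩ := exists_eLpNorm_indicator_le (μ := μ) ENNReal.one_ne_top c hε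
      have η1 : (η : ENNReal) / 2 ≠ 0 := ENNReal.half_pos (ENNReal.coe_pos.2 η0).ne' |>.ne'
      obtain ⟨K, k1, k2, k3⟩ := ht.exists_isCompact_sdiff_lt htμ.ne η1
      obtain ⟨U, u1, u2, -, u3⟩ := ht.exists_isOpen_sdiff_lt htμ.ne η1
      obtain ⟨f, f1, f2, f3, f4⟩ := exists_continuous_one_zero_of_isCompact k2 u2.isClosed_compl
        (disjoint_compl_right_iff_subset.2 (k1.trans u1))
      refine ⟨fun x => f x • c, (eLpNorm_mono fun x => ?_).trans (hη (U \ K) ?_),
        f.continuous.smul continuous_const, f3.smul_right⟩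
      · have h1 := f4 x
        by_cases hK : x ∈ K
        · simp [f1 hK, k1 hK]
        by_cases hU : x ∈ U
        · rw [indicator_of_mem (show x ∈ U \ K from ⟨hU, hK⟩), Pi.sub_apply]
          by_cases h : x ∈ t
          · rw [indicator_of_mem h, show f x • c - c = (f x - 1) • c by rw [sub_smul, one_smul],
              norm_smul]
            exact mul_le_of_le_one_left (norm_nonneg _) (abs_le.2 ⟨by linarith [h1.1], by linarith [h1.2]⟩)
          · rw [indicator_of_notMem h, sub_zero, norm_smul]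
            exact mul_le_of_le_one_left (norm_nonneg _) (abs_le.2 ⟨by linarith [h1.1], h1.2⟩)
        · simp [f2 hU, show x ∉ t from fun h => hU (u1 h)]
      · calc μ (U \ K) ≤ μ (U \ t ∪ t \ K) := measure_mono (sdiff_triangle U t K)
          _ ≤ η / 2 + η / 2 := (measure_union_le _ _).trans (add_le_add u3.le k3.le)
          _ = η := ENNReal.add_halves _)
    (fun f g hf hg => ⟨hf.1.add hg.1, hs hf.2 hg.2⟩)
    (fun f hf => (hf.1.integrable_of_hasCompactSupport hf.2).1) (ENNReal.ofReal_pos.2 hε).ne'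
  refine ⟨g, h3, ?_, h2⟩
  rwa [eLpNorm_one_eq_lintegral_enorm, ← ofReal_integral_norm_eq_lintegral_enorm
    (hf.sub (h2.integrable_of_hasCompactSupport h3)), ENNReal.ofReal_le_ofReal_iff hε.le] at h1

variable {ω : G → ℝ} (hω : Continuous ω) (h0 : ∀ s, 0 < ω s)

noncomputable abbrev nu (μ : Measure G) (ω : G → ℝ) : Measure G :=
  μ.withDensity fun x => ENNReal.ofReal (ω x)

include hω h0

lemma intg {E : Type*} [NormedAddCommGroup E] [NormedSpace ℝ E] (g : G → E) :
    Integrable g (nu μ ω) ↔ Integrable (fun x => ω x • g x) μ := by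
  rw [integrable_withDensity_iff_integrable_smul' hω.measurable.ennreal_ofReal (by simp)]
  simp [(h0 _).le]

lemma intg2 {E : Type*} [NormedAddCommGroup E] [NormedSpace ℝ E] (g : G → E) :
    ∫ x, g x ∂(nu μ ω) = ∫ x, ω x • g x ∂μ := by
  rw [integral_withDensity_eq_integral_toReal_smul hω.measurable.ennreal_ofReal (by simp)]
  simp [(h0 _).le]

lemma intC {g : G → ℂ} (h1 : Continuous g) (h2 : HasCompactSupport g) : Integrable g (nu μ ω) :=
  (intg μ hω h0 g).2 ((hω.smul h1).integrable_of_hasCompactSupport h2.smul_left)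

lemma intI {E : Type*} [NormedAddCommGroup E] [NormedSpace ℝ E] {S K : Set G} (hK : IsCompact K)
    (hS : MeasurableSet S) (h : S ⊆ K) (z : E) :
    Integrable (S.indicator fun _ => z) (nu μ ω) := by
  rw [intg μ hω h0]
  have := (((hω.smul (continuous_const (y := z))).continuousOn.integrableOn_compact
    (μ := μ) hK).mono_set h).integrable_indicator hS
  refine this.congr (Eventually.of_forall fun x => ?_)
  by_cases hx : x ∈ S <;> simp [hx]

lemma dens (a : G →₁[nu μ ω] ℂ) {ε : ℝ} (hε : 0 < ε) : ∃ g : G → ℂ, Continuous g ∧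
    HasCompactSupport g ∧ ∀ hg : Integrable g (nu μ ω), ‖a - hg.toL1 g‖ ≤ ε := by
  obtain ⟨g, h1, h2, h3⟩ := densC μ ((intg μ hω h0 a).1 (L1.integrable_coeFn a)) hε
  refine ⟨fun x => (ω x)⁻¹ • g x, (hω.inv₀ fun x => (h0 x).ne').smul h3,
    HasCompactSupport.smul_left (f := fun x => (ω x)⁻¹) h1, fun hg => ?_⟩
  have : a - hg.toL1 _ = ((L1.integrable_coeFn a).sub hg).toL1 _ := by
    rw [Integrable.toL1_sub _ _ (L1.integrable_coeFn a) hg, Integrable.toL1_coeFn]
  rw [this, L1.norm_of_fun_eq_integral_norm, intg2 μ hω h0]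
  refine le_of_eq_of_le (integral_congr_ae (Eventually.of_forall fun x => ?_)) h2
  have : ω x • a x - g x = ω x • (a x - (ω x)⁻¹ • g x) := by
    rw [smul_sub, smul_smul, mul_inv_cancel₀ (h0 x).ne', one_smul]
  simp only [this, norm_smul, Real.norm_of_nonneg (h0 x).le, smul_eq_mul, Pi.sub_apply]

omit hω h0 in
lemma fnl (ν : Measure G) {β : G → ℂ} (h1 : AEStronglyMeasurable β ν) {C : ℝ}
    (h2 : ∀ x, ‖β x‖ ≤ C) : ∃ φ : StrongDual ℂ (G →₁[ν] ℂ), ‖φ‖ ≤ C ∧
      ∀ (g : G → ℂ) (hg : Integrable g ν), φ (hg.toL1 g) = ∫ x, β x * g x ∂ν := by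
  have h3 : ∀ a : G →₁[ν] ℂ, Integrable (fun x => β x * a x) ν := fun a =>
    (L1.integrable_coeFn a).bdd_mul h1 (Eventually.of_forall h2)
  have C0 : 0 ≤ C := (norm_nonneg _).trans (h2 1)
  refine ⟨LinearMap.mkContinuous
    { toFun := fun a => ∫ x, β x * a x ∂ν
      map_add' := fun a b => by
        rw [← integral_add (h3 a) (h3 b)]
        exact integral_congr_ae ((Lp.coeFn_add a b).mono fun x hx => by
          simp only [hx, Pi.add_apply, mul_add])
      map_smul' := fun z a => by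
        rw [RingHom.id_apply, ← integral_smul]
        exact integral_congr_ae ((Lp.coeFn_smul z a).mono fun x hx => by
          simp [hx, mul_left_comm]) } C fun a => ?_,
    LinearMap.mkContinuous_norm_le _ C0 _, fun g hg =>
      integral_congr_ae (hg.coeFn_toL1.mono fun x hx => by simp only [hx])⟩
  rw [L1.norm_eq_integral_norm, ← integral_const_mul]
  exact norm_integral_le_of_norm_le ((L1.integrable_coeFn a).norm.const_mul C)
    (Eventually.of_forall fun x => by
      rw [norm_mul]; exact mul_le_mul_of_nonneg_right (h2 x) (norm_nonneg _))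

end Pool.Agent.H.MP_cecf91_an
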