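import Pool.Agent.H.MP_cecf91_an.F

set_option autoImplicit false
set_option linter.unusedSectionVars false

namespace Pool.Agent.H.MP_cecf91_an
open Set BoundedContinuousFunction Filter Topology MeasureTheory Pointwise

variable {G : Type*} [Group G] [TopologicalSpace G] [IsTopologicalGroup G] [LocallyCompactSpace G]
  [T2Space G] [MeasurableSpace G] [BorelSpace G] (μ : Measure G) [μ.IsHaarMeasure] [μ.Regular]
  {ω : G → ℝ} (hω : Continuous ω) (h0 : ∀ s, 0 < ω s)
  (m : (G →₁[nu μ ω] ℂ) →L[ℂ] (G →₁[nu μ ω] ℂ) →L[ℂ] (G →₁[nu μ ω] ℂ))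
  (hm : ∀ (f g : G → ℂ) (hf : Integrable f (nu μ ω)) (hg : Integrable g (nu μ ω)),
    m (hf.toL1 f) (hg.toL1 g) =ᵐ[μ] fun x => ∫ y, f y * g (y⁻¹ * x) ∂μ)

include hω h0 hm

theorem disc2 [DiscreteTopology G] [Infinite G] (h1 : ∀ s t, ω (s * t) ≤ ω s * ω t) (h2 : ω 1 = 1)
    {p} (hp : Ar m p) : Concl p := by
  classical
  have k0 : 0 < μ.real {1} := ENNReal.toReal_pos
    ((isOpen_discrete _).measure_pos μ (singleton_nonempty _)).ne' isCompact_singleton.measure_ne_top
  have i1 : ∀ {E : Type} [NormedAddCommGroup E] [NormedSpace ℝ E] [CompleteSpace E] (f : G → E) s,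
      (∀ y, y ≠ s → f y = 0) → ∫ y, f y ∂μ = μ.real {1} • f s := fun f s h => by
    rw [← setIntegral_eq_integral_of_forall_compl_eq_zero (s := {s}) h, integral_singleton,
      measureReal_def, measureReal_def, μ.haar_singleton]
  generalize μ.real {1} = k at k0 i1
  obtain ⟨e, e0, e1, he⟩ : ∃ e : G → G → ℂ, (∀ s y, y ≠ s → e s y = 0) ∧
      (∀ s, e s s = ((k * ω s)⁻¹ : ℝ)) ∧ ∀ s, Integrable (e s) (nu μ ω) :=
    ⟨fun s => indicator {s} fun _ => ((k * ω s)⁻¹ : ℝ), fun s y h => by simp [h],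
      fun s => by simp, fun s =>
      intI μ hω h0 isCompact_singleton (measurableSet_singleton s) Subset.rfl _⟩
  have kc : (k : ℂ) ≠ 0 := by exact_mod_cast k0.ne'
  have wc : ∀ s, (ω s : ℂ) ≠ 0 := fun s => by exact_mod_cast (h0 s).ne'
  refine disc ⟨fun s t => ω (s * t) / (ω s * ω t), fun s t => div_pos (h0 _) (mul_pos (h0 s) (h0 t)),
    fun s t => (div_le_one (mul_pos (h0 s) (h0 t))).2 (h1 s t), fun s t u => ?_,
    fun t => by simp [h2, (h0 t).ne'], fun t => by simp [h2, (h0 t).ne']⟩ m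
    (fun s => (he s).toL1 _) (fun s => ?_) (fun φ hφ => ?_) (fun β => ?_) (fun s t => ?_) hp
  · have := (h0 s).ne'
    have := (h0 t).ne'
    have := (h0 u).ne'
    have := (h0 (s * t)).ne'
    have := (h0 (t * u)).ne'
    rw [mul_assoc s]
    field_simp
  · have := mul_pos k0 (h0 s)
    rw [L1.norm_of_fun_eq_integral_norm, intg2 μ hω h0, i1 _ s fun y hy => by simp [e0 s y hy], e1,
      Complex.norm_real, Real.norm_of_nonneg (inv_pos.2 this).le, smul_eq_mul, smul_eq_mul,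
      ← mul_assoc, mul_inv_cancel₀ this.ne']
  · have key : ∀ (F : Finset G) (g : G → ℂ) (hg : Integrable g (nu μ ω)),
        (∀ x, x ∉ F → g x = 0) → φ (hg.toL1 g) = 0 := fun F => by
      induction F using Finset.induction_on with
      | empty =>
        intro g hg h
        obtain rfl : g = 0 := funext fun x => h x (by simp)
        simp
      | insert s F _ ih =>
        intro g hg h
        have := ih _ (hg.sub ((he s).smul (g s * k * ω s))) fun x hx => by
          by_cases h3 : x = s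
          · simp only [h3, Pi.sub_apply, Pi.smul_apply, e1, smul_eq_mul]
            have := wc s
            push_cast
            field_simp
            ring
          · simp [e0 s x h3, h x (by simp [h3, hx])]
        rwa [Integrable.toL1_sub _ _ hg ((he s).smul _), Integrable.toL1_smul' _ (he s), map_sub,
          map_smul, hφ, smul_zero, sub_zero] at this
    ext a
    refine norm_le_zero_iff.1 (le_of_forall_pos_le_add fun ε hε => ?_)
    have h3 : 0 < ‖φ‖ + 1 := by positivity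
    obtain ⟨g, g1, g2, g3⟩ := dens μ hω h0 a (div_pos hε h3)
    have h4 := key g2.finite_of_discrete.toFinset g (intC μ hω h0 g1 g2) fun x hx =>
      image_eq_zero_of_notMem_tsupport (by simpa using hx)
    have h5 := φ.le_of_opNorm_le_of_le (le_add_of_nonneg_right zero_le_one) (g3 (intC μ hω h0 g1 g2))
    rw [map_sub, h4, sub_zero, mul_div_cancel₀ _ h3.ne'] at h5
    rwa [zero_add]
  · obtain ⟨φ, h3, h4⟩ := fnl (nu μ ω) (β := fun x => (β x : ℂ)) (C := ‖β‖)
      (Complex.continuous_ofReal.comp_aestronglyMeasurable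
        β.continuous.measurable.aestronglyMeasurable)
      fun x => by simpa using β.norm_coe_le_norm x
    refine ⟨φ, h3, fun s => ?_⟩
    rw [h4, intg2 μ hω h0, i1 _ s fun y hy => by simp [e0 s y hy], e1]
    have := wc s
    simp only [Complex.real_smul]
    push_cast
    field_simp
  · refine Lp.ext (((withDensity_absolutelyContinuous μ _).ae_eq (hm _ _ (he s) (he t))).trans ?_)
    filter_upwards [Lp.coeFn_smul ((ω (s * t) / (ω s * ω t) : ℝ) : ℂ) ((he (s * t)).toL1 _),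
      (he (s * t)).coeFn_toL1] with x h3 h4
    rw [h3, Pi.smul_apply, h4, i1 _ s fun y hy => by simp [e0 s y hy], e1]
    by_cases h : x = s * t
    · have := wc s
      have := wc t
      have := wc (s * t)
      simp only [h, inv_mul_cancel_left, e1, Complex.real_smul, smul_eq_mul]
      push_cast
      field_simp
    · simp [e0 _ _ h, e0 t (s⁻¹ * x) fun h' => h (by rw [← h']; simp)]

lemma appid {K : Set G} (hK : IsCompact K) (a : G →₁[nu μ ω] ℂ) {ε C : ℝ} (hε : 0 < ε) :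
    ∀ᶠ V in (𝓝 (1 : G)).smallSets, ∀ S ⊆ V, S ⊆ K → MeasurableSet S → (∀ x ∈ S, x⁻¹ ∈ S) →
      μ S ≠ 0 → ∀ hS : Integrable (S.indicator fun _ => (((μ.real S)⁻¹ : ℝ) : ℂ)) (nu μ ω),
        ‖hS.toL1 _‖ ≤ C → ‖m a (hS.toL1 _) - a‖ ≤ ε * (‖m‖ * C + 2) := by
  obtain ⟨g, g1, g2, g3⟩ := dens μ hω h0 a hε
  have hg := intC μ hω h0 g1 g2
  have hL : IsCompact (tsupport g ∪ tsupport g * K⁻¹) := g2.isCompact.union (g2.isCompact.mul hK.inv)
  generalize hL' : tsupport g ∪ tsupport g * K⁻¹ = L at hL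
  have i1 := intI μ hω h0 hL hL.measurableSet Subset.rfl (1 : ℝ)
  obtain ⟨δ, δ0, hδ⟩ : ∃ δ > 0, δ * ∫ x, L.indicator (fun _ => (1 : ℝ)) x ∂(nu μ ω) ≤ ε := by
    have h1 : 0 ≤ ∫ x, L.indicator (fun _ => (1 : ℝ)) x ∂(nu μ ω) :=
      integral_nonneg fun x => indicator_nonneg (by simp) x
    refine ⟨ε / (_ + 1), div_pos hε (add_pos_of_nonneg_of_pos h1 one_pos), ?_⟩
    rw [div_mul_eq_mul_div, div_le_iff₀ (by positivity)]
    nlinarith
  have h1 : ∀ᶠ z in 𝓝 (1 : G), ∀ x ∈ L, ‖g (x * z) - g x‖ < δ :=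
    hL.eventually_forall_of_forall_eventually fun x _ =>
      ContinuousAt.eventually_lt (f := fun q : G × G => ‖g (q.2 * q.1) - g q.2‖) (by fun_prop)
        continuousAt_const (by simpa using δ0)
  filter_upwards [eventually_smallSets_forall.2 h1] with V hV S h2 h3 h4 h5 h6 hS h7
  have h8 : μ S < ⊤ := (measure_mono h3).trans_lt hK.measure_lt_top
  have h9 : 0 < μ.real S := ENNReal.toReal_pos h6 h8.ne
  have h10 : ∀ x, ‖∫ y, g y * S.indicator (fun _ => (((μ.real S)⁻¹ : ℝ) : ℂ)) (y⁻¹ * x) ∂μ - g x‖ ≤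
      δ * L.indicator (fun _ => (1 : ℝ)) x := fun x => by
    have h11 : ∫ y, g y * S.indicator (fun _ => (((μ.real S)⁻¹ : ℝ) : ℂ)) (y⁻¹ * x) ∂μ - g x =
        (μ.real S)⁻¹ • ∫ z in S, (g (x * z) - g x) ∂μ := by
      have : IntegrableOn (fun z => g (x * z)) S μ :=
        ((by fun_prop : Continuous fun z => g (x * z)).continuousOn.integrableOn_compact hK).mono_set h3
      rw [integral_sub this (integrableOn_const h8.ne), setIntegral_const, smul_sub, smul_smul,
        inv_mul_cancel₀ h9.ne', one_smul, ← integral_mul_left_eq_self _ x, ← integral_indicator h4,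
        ← integral_smul]
      congr 2
      ext z
      by_cases hz : z ∈ S
      · simp [hz, h5 z hz, mul_comm]
      · simp [hz, show z⁻¹ ∉ S from fun h => hz (by simpa using h5 _ h)]
    rw [h11, norm_smul, Real.norm_of_nonneg (inv_pos.2 h9).le, inv_mul_le_iff₀ h9, mul_comm]
    refine norm_setIntegral_le_of_norm_le_const h8 fun z hz => ?_
    by_cases hx : x ∈ L
    · simpa [hx] using (hV z (h2 hz) x hx).le
    · have h12 : g x = 0 := image_eq_zero_of_notMem_tsupport fun h => hx (hL' ▸ Or.inl h)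
      have h13 : g (x * z) = 0 := image_eq_zero_of_notMem_tsupport fun h => hx (hL' ▸ Or.inr
        ⟨_, h, z⁻¹, by simpa using h3 hz, by simp⟩)
      simp [hx, h12, h13]
  have h11 : ‖m (hg.toL1 g) (hS.toL1 _) - hg.toL1 g‖ ≤ ε := by
    rw [L1.norm_eq_integral_norm]
    refine le_trans ?_ hδ
    rw [← integral_const_mul]
    refine integral_mono_ae (L1.integrable_coeFn _).norm (i1.const_mul δ) ?_
    filter_upwards [Lp.coeFn_sub (m (hg.toL1 g) (hS.toL1 _)) (hg.toL1 g), hg.coeFn_toL1,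
      (withDensity_absolutelyContinuous μ _).ae_eq (hm _ _ hg hS)] with x h12 h13 h14
    rw [h12, Pi.sub_apply, h13, h14]
    exact h10 x
  have h12 := g3 hg
  have h13 : ‖m (a - hg.toL1 g) (hS.toL1 _)‖ ≤ ‖m‖ * ε * C := (m.le_opNorm₂ _ _).trans (by gcongr)
  calc _ = ‖m (a - hg.toL1 g) (hS.toL1 _) + (m (hg.toL1 g) (hS.toL1 _) - hg.toL1 g) -
        (a - hg.toL1 g)‖ := by congr 1; simp
    _ ≤ ‖m‖ * ε * C + ε + ε := (norm_sub_le _ _).trans (add_le_add ((norm_add_le _ _).trans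
        (add_le_add h13 h11)) h12)
    _ = _ := by ring

theorem ndisc2 (h : ¬ DiscreteTopology G) {p} (hp : Ar m p) : Concl p := by
  classical
  obtain ⟨E, e1, e2, e3⟩ := exE μ h
  obtain ⟨K, hK, hK1⟩ := exists_compact_mem_nhds (1 : G)
  obtain ⟨x1, -, m1⟩ := hK.exists_isMinOn ⟨1, mem_of_mem_nhds hK1⟩ hω.continuousOn
  obtain ⟨x2, -, m2⟩ := hK.exists_isMaxOn ⟨1, mem_of_mem_nhds hK1⟩ hω.continuousOn
  obtain ⟨φ, -, hφ⟩ := fnl (nu μ ω) (β := E.indicator 1) (C := 1)
    (aestronglyMeasurable_const.indicator e1.measurableSet) fun x => by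
      by_cases hx : x ∈ E <;> simp [hx]
  have av : ∀ S ⊆ K, MeasurableSet S → μ S ≠ 0 →
      ∫ x, ω x * S.indicator (fun _ => (μ.real S)⁻¹) x ∂μ ∈ Icc (ω x1) (ω x2) := fun S h1 h2 h3 => by
    have h8 : μ S < ⊤ := (measure_mono h1).trans_lt hK.measure_lt_top
    have h9 : 0 < μ.real S := ENNReal.toReal_pos h3 h8.ne
    have h4 : IntegrableOn ω S μ := (hω.continuousOn.integrableOn_compact hK).mono_set h1
    have : ∫ x, ω x * S.indicator (fun _ => (μ.real S)⁻¹) x ∂μ = (∫ x in S, ω x ∂μ) / μ.real S := by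
      rw [← integral_indicator h2, ← integral_div]
      congr 1
      ext x
      by_cases hx : x ∈ S <;> simp [hx, div_eq_mul_inv]
    rw [this, mem_Icc, le_div_iff₀ h9, div_le_iff₀ h9]
    constructor
    · simpa [mul_comm] using setIntegral_mono_on (integrableOn_const h8.ne) h4 h2
        fun x hx => m1 (h1 hx)
    · simpa [mul_comm] using setIntegral_mono_on h4 (integrableOn_const h8.ne) h2
        fun x hx => m2 (h1 hx)
  have nr : ∀ S (h1 : S ⊆ K) (h2 : MeasurableSet S), μ S ≠ 0 →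
      ‖(intI μ hω h0 hK h2 h1 (((μ.real S)⁻¹ : ℝ) : ℂ)).toL1 _‖ ≤ ω x2 := fun S h1 h2 h3 => by
    rw [L1.norm_of_fun_eq_integral_norm, intg2 μ hω h0]
    refine le_of_eq_of_le (integral_congr_ae (Eventually.of_forall fun x => ?_)) (av S h1 h2 h3).2
    by_cases hx : x ∈ S <;> simp [hx]
  refine ndisc m φ (C := ω x2 + ω x2) (h0 x1) (fun F ε hε => ?_) hp
  have h1 : 0 < ‖m‖ * ω x2 + 2 := by have := h0 x2; positivity
  obtain ⟨V, v1, v2⟩ := ((eventually_all_finset F).2 fun a _ =>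
    appid μ hω h0 m hm hK a (C := ω x2) (div_pos (half_pos hε) h1)).exists_mem_of_smallSets
  have w0 : IsOpen (interior (V ∩ K) ∩ (interior (V ∩ K))⁻¹) := isOpen_interior.inter isOpen_interior.inv
  have w1 : 1 ∈ interior (V ∩ K) := mem_interior_iff_mem_nhds.2 (inter_mem v1 hK1)
  have w2 : ∀ x ∈ interior (V ∩ K) ∩ (interior (V ∩ K))⁻¹,
      x⁻¹ ∈ interior (V ∩ K) ∩ (interior (V ∩ K))⁻¹ := fun x hx => ⟨hx.2, by simpa using hx.1⟩
  have w3 : interior (V ∩ K) ∩ (interior (V ∩ K))⁻¹ ⊆ V ∩ K := inter_subset_left.trans interior_subset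
  obtain ⟨w4, w5⟩ := e3 _ (w0.mem_nhds ⟨w1, by simpa using w1⟩)
  generalize interior (V ∩ K) ∩ (interior (V ∩ K))⁻¹ = W at w0 w2 w3 w4 w5
  have s1 : W ∩ E ⊆ K := fun x hx => (w3 hx.1).2
  have s2 : W \ E ⊆ K := fun x hx => (w3 hx.1).2
  have s3 := w0.measurableSet.inter e1.measurableSet
  have s4 := w0.measurableSet.diff e1.measurableSet
  refine ⟨_ - _, (norm_sub_le _ _).trans (add_le_add (nr _ s1 s3 w4) (nr _ s2 s4 w5)), ?_,
    fun a ha => ?_⟩
  · rw [map_sub, hφ, hφ, intg2 μ hω h0, intg2 μ hω h0]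
    have h2 : ∀ x, ω x • (E.indicator 1 x * (W \ E).indicator
        (fun _ => (((μ.real (W \ E))⁻¹ : ℝ) : ℂ)) x) = 0 := fun x => by
      by_cases hx : x ∈ E <;> simp [hx]
    have h3 : ∀ x, ω x • (E.indicator 1 x * (W ∩ E).indicator
        (fun _ => (((μ.real (W ∩ E))⁻¹ : ℝ) : ℂ)) x) =
        ((ω x * (W ∩ E).indicator (fun _ => (μ.real (W ∩ E))⁻¹) x : ℝ) : ℂ) := fun x => by
      by_cases hx : x ∈ W ∩ E
      · simp [hx, hx.2]
      · simp [hx]
    simp only [h2, h3, integral_zero, sub_zero, integral_complex_ofReal, Complex.ofReal_re]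
    exact (av _ s1 s3 w4).1
  · have h2 := v2 a ha _ (fun x hx => (w3 hx.1).1) s1 s3
      (fun x hx => ⟨w2 x hx.1, e2 x hx.2⟩) w4 _ (nr _ s1 s3 w4)
    have h3 := v2 a ha _ (fun x hx => (w3 hx.1).1) s2 s4
      (fun x hx => ⟨w2 x hx.1, fun h => hx.2 (by simpa using e2 _ h)⟩) w5 _ (nr _ s2 s4 w5)
    rw [div_mul_cancel₀ _ h1.ne'] at h2 h3
    rw [map_sub, ← sub_sub_sub_cancel_right _ _ a]
    exact (norm_sub_le _ _).trans (by linarith)

end Pool.Agent.H.MP_cecf91_an
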